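import Pool.Agent.H64.NB.Defs

/-!
# The cross product of 2-cycles of two groups
-/

namespace Pool.Agent.H64.NB

open Pool.Agent.H8.SV

set_option linter.unusedSectionVars false

variable {G H : Type} [Group G] [Group H]

/-- The value of a 2-cochain on a 2-chain. -/
noncomputable def ev2 (x : G → G → ℤ) : Chain ℤ G 2 →ₗ[ℤ] ℤ :=
  Finsupp.linearCombination ℤ (fun g => x (g 0) (g 1))

lemma ev2_single (x : G → G → ℤ) (g h : G) (a : ℤ) :
    ev2 x (Finsupp.single ![g, h] a) = a * x g h := by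
  unfold ev2
  rw [Finsupp.linearCombination_single, smul_eq_mul]
  rfl

/-- The value of `x ∪ y` as a linear map. -/
noncomputable def cupL (x y : G → G → ℤ) : Chain ℤ G 4 →ₗ[ℤ] ℤ :=
  Finsupp.linearCombination ℤ (fun g => x (g 0) (g 1) * y (g 2) (g 3))

lemma cup_eq (x y : G → G → ℤ) (z : Chain ℤ G 4) : cup x y z = cupL x y z := rfl

lemma cupL_single (x y : G → G → ℤ) (a b c d : G) (n : ℤ) :
    cupL x y (Finsupp.single ![a, b, c, d] n) = n * (x a b * y c d) := by
  unfold cupL
  rw [Finsupp.linearCombination_single, smul_eq_mul]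
  rfl

lemma bdry_two (g h : G) (a : ℤ) : bdry ℤ G 1 (Finsupp.single ![g, h] a) =
    Finsupp.single ![h] a - Finsupp.single ![g * h] a + Finsupp.single ![g] a := by
  have f0 : face ![g, h] 0 = ![h] := by
    funext k; fin_cases k; rfl
  have f1 : face ![g, h] 1 = ![g * h] := by
    funext k; fin_cases k; rfl
  have f2 : face ![g, h] 2 = ![g] := by
    funext k; fin_cases k; rfl
  rw [bdry_single, bdrySingle, Fin.sum_univ_three, f0, f1, f2]
  simp only [smul_add, Finsupp.smul_single, smul_eq_mul]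
  norm_num [sub_eq_add_neg]

lemma bdry_four (g0 g1 g2 g3 : G) (a : ℤ) : bdry ℤ G 3 (Finsupp.single ![g0, g1, g2, g3] a) =
    Finsupp.single ![g1, g2, g3] a - Finsupp.single ![g0 * g1, g2, g3] a +
      Finsupp.single ![g0, g1 * g2, g3] a - Finsupp.single ![g0, g1, g2 * g3] a +
      Finsupp.single ![g0, g1, g2] a := by
  have f0 : face ![g0, g1, g2, g3] 0 = ![g1, g2, g3] := by
    funext k; fin_cases k <;> rfl
  have f1 : face ![g0, g1, g2, g3] 1 = ![g0 * g1, g2, g3] := by
    funext k; fin_cases k <;> rfl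
  have f2 : face ![g0, g1, g2, g3] 2 = ![g0, g1 * g2, g3] := by
    funext k; fin_cases k <;> rfl
  have f3 : face ![g0, g1, g2, g3] 3 = ![g0, g1, g2 * g3] := by
    funext k; fin_cases k <;> rfl
  have f4 : face ![g0, g1, g2, g3] 4 = ![g0, g1, g2] := by
    funext k; fin_cases k <;> rfl
  rw [bdry_single, bdrySingle, Fin.sum_univ_five, f0, f1, f2, f3, f4]
  simp only [smul_add, Finsupp.smul_single, smul_eq_mul]
  norm_num [sub_eq_add_neg]

/-- The cross product of two 2-simplices. -/
noncomputable def X22 (g0 g1 : G) (h0 h1 : H) : Chain ℤ (G × H) 4 :=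
  Finsupp.single ![(g0, 1), (g1, 1), (1, h0), (1, h1)] 1
    - Finsupp.single ![(g0, 1), (1, h0), (g1, 1), (1, h1)] 1
    + Finsupp.single ![(g0, 1), (1, h0), (1, h1), (g1, 1)] 1
    + Finsupp.single ![(1, h0), (g0, 1), (g1, 1), (1, h1)] 1
    - Finsupp.single ![(1, h0), (g0, 1), (1, h1), (g1, 1)] 1
    + Finsupp.single ![(1, h0), (1, h1), (g0, 1), (g1, 1)] 1

/-- The cross product of a 1-simplex and a 2-simplex. -/
noncomputable def X12 (g : G) (h0 h1 : H) : Chain ℤ (G × H) 3 :=
  Finsupp.single ![(g, 1), (1, h0), (1, h1)] 1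
    - Finsupp.single ![(1, h0), (g, 1), (1, h1)] 1
    + Finsupp.single ![(1, h0), (1, h1), (g, 1)] 1

/-- The cross product of a 2-simplex and a 1-simplex. -/
noncomputable def X21 (g0 g1 : G) (h : H) : Chain ℤ (G × H) 3 :=
  Finsupp.single ![(g0, 1), (g1, 1), (1, h)] 1
    - Finsupp.single ![(g0, 1), (1, h), (g1, 1)] 1
    + Finsupp.single ![(1, h), (g0, 1), (g1, 1)] 1

lemma bdry_X22 (g0 g1 : G) (h0 h1 : H) : bdry ℤ (G × H) 3 (X22 g0 g1 h0 h1) =
    (X12 g1 h0 h1 - X12 (g0 * g1) h0 h1 + X12 g0 h0 h1) +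
      (X21 g0 g1 h1 - X21 g0 g1 (h0 * h1) + X21 g0 g1 h0) := by
  unfold X22 X12 X21
  simp only [map_add, map_sub, bdry_four, Prod.mk_mul_mk, one_mul, mul_one]
  abel

/-- The cross product. -/
noncomputable def crs : Chain ℤ G 2 →ₗ[ℤ] (Chain ℤ H 2 →ₗ[ℤ] Chain ℤ (G × H) 4) :=
  Finsupp.linearCombination ℤ (fun g => Finsupp.linearCombination ℤ
    (fun h => X22 (g 0) (g 1) (h 0) (h 1)))

/-- The cross product. -/
noncomputable def crs12 : Chain ℤ G 1 →ₗ[ℤ] (Chain ℤ H 2 →ₗ[ℤ] Chain ℤ (G × H) 3) :=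
  Finsupp.linearCombination ℤ (fun g => Finsupp.linearCombination ℤ
    (fun h => X12 (g 0) (h 0) (h 1)))

/-- The cross product. -/
noncomputable def crs21 : Chain ℤ G 2 →ₗ[ℤ] (Chain ℤ H 1 →ₗ[ℤ] Chain ℤ (G × H) 3) :=
  Finsupp.linearCombination ℤ (fun g => Finsupp.linearCombination ℤ
    (fun h => X21 (g 0) (g 1) (h 0)))

lemma bdry_crs_single (g : Fin 2 → G) (h : Fin 2 → H) :
    bdry ℤ (G × H) 3 (crs (Finsupp.single g 1) (Finsupp.single h 1)) =
      crs12 (bdry ℤ G 1 (Finsupp.single g 1)) (Finsupp.single h 1) +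
        crs21 (Finsupp.single g 1) (bdry ℤ H 1 (Finsupp.single h 1)) := by
  have hg : g = ![g 0, g 1] := by
    funext k; fin_cases k <;> rfl
  have hh : h = ![h 0, h 1] := by
    funext k; fin_cases k <;> rfl
  rw [hg, hh, bdry_two, bdry_two]
  simp only [crs, crs12, crs21, map_add, map_sub, LinearMap.add_apply, LinearMap.sub_apply,
    Finsupp.linearCombination_single, one_smul]
  exact bdry_X22 _ _ _ _

theorem bdry_crs (y : Chain ℤ G 2) (z : Chain ℤ H 2) :
    bdry ℤ (G × H) 3 (crs y z) = crs12 (bdry ℤ G 1 y) z + crs21 y (bdry ℤ H 1 z) := by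
  induction y using Finsupp.induction_linear with
  | zero => simp
  | add y y' hy hy' =>
    simp only [map_add, LinearMap.add_apply, hy, hy']
    abel
  | single g a =>
    induction z using Finsupp.induction_linear with
    | zero => simp
    | add z z' hz hz' =>
      simp only [map_add, hz, hz']
      abel
    | single h b =>
      have h1 : (Finsupp.single g a : Chain ℤ G 2) = a • Finsupp.single g 1 := by
        rw [Finsupp.smul_single, smul_eq_mul, mul_one]
      have h2 : (Finsupp.single h b : Chain ℤ H 2) = b • Finsupp.single h 1 := by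
        rw [Finsupp.smul_single, smul_eq_mul, mul_one]
      rw [h1, h2]
      simp only [map_smul, LinearMap.smul_apply, bdry_crs_single, smul_add]

/-- The cross product of cycles is a cycle. -/
theorem bdry_crs_zero {y : Chain ℤ G 2} {z : Chain ℤ H 2} (hy : bdry ℤ G 1 y = 0)
    (hz : bdry ℤ H 1 z = 0) : bdry ℤ (G × H) 3 (crs y z) = 0 := by
  rw [bdry_crs, hy, hz]
  simp

/-- The sum of the pull backs of two cochains. -/
def osum (x : G → G → ℤ) (x' : H → H → ℤ) : G × H → G × H → ℤ :=
  fun p q => x p.1 q.1 + x' p.2 q.2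

/-- A normalised cochain. -/
def Nrm (x : G → G → ℤ) : Prop := (∀ g, x 1 g = 0) ∧ ∀ g, x g 1 = 0

theorem cup_crs {x y : G → G → ℤ} {x' y' : H → H → ℤ} (hx : Nrm x) (hy : Nrm y) (hx' : Nrm x')
    (hy' : Nrm y') (w : Chain ℤ G 2) (z : Chain ℤ H 2) :
    cup (osum x x') (osum y y') (crs w z) = ev2 x w * ev2 y' z + ev2 y w * ev2 x' z := by
  rw [cup_eq]
  induction w using Finsupp.induction_linear with
  | zero => simp
  | add w w' hw hw' =>
    simp only [map_add, LinearMap.add_apply, hw, hw']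
    ring
  | single g a =>
    induction z using Finsupp.induction_linear with
    | zero => simp
    | add z z' hz hz' =>
      simp only [map_add, hz, hz']
      ring
    | single h b =>
      simp only [crs, Finsupp.linearCombination_single, LinearMap.smul_apply, map_smul, ev2, X22,
        map_add, map_sub, cupL_single, osum, hx.1, hx.2, hy.1, hy.2, hx'.1, hx'.2, hy'.1, hy'.2,
        smul_eq_mul]
      ring

end Pool.Agent.H64.NB
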