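import Pool.Agent.H64.NB.Defs
import Pool.Agent.H79.FB.Final

/-!
# The lifted triples form a group with the translations as the kernel
-/

namespace Pool.Agent.H64.NB

open Pool.Agent.H79.FB Pool.Agent.H8.SV

lemma lifted_mul {x y : Triple} (hx : IsLifted x) (hy : IsLifted y) : IsLifted (x * y) where
  iso := isotopic_mul hx.iso hy.iso
  circ t := by
    change x.1 (y.1 (circ t)) = circ (x.2.1 (y.2.1 t))
    rw [hy.circ, hx.circ]
  circ_add t := by
    change x.2.1 (y.2.1 (t + 1)) = x.2.1 (y.2.1 t) + 1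
    rw [hy.circ_add, hx.circ_add]
  tor p := by
    change x.1 (y.1 (tor p)) = tor (x.2.2 (y.2.2 p))
    rw [hy.tor, hx.tor]
  tor_add p t := by
    change x.2.2 (y.2.2 (p, t + 1)) = ((x.2.2 (y.2.2 (p, t))).1, (x.2.2 (y.2.2 (p, t))).2 + 1)
    rw [hy.tor_add, hx.tor_add]

lemma lifted_inv {x : Triple} (hx : IsLifted x) : IsLifted x⁻¹ where
  iso := isotopic_inv hx.iso
  circ t := by
    change x.1.symm (circ t) = circ (x.2.1.symm t)
    rw [Homeomorph.symm_apply_eq, hx.circ, Homeomorph.apply_symm_apply]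
  circ_add t := by
    change x.2.1.symm (t + 1) = x.2.1.symm t + 1
    rw [Homeomorph.symm_apply_eq, hx.circ_add, Homeomorph.apply_symm_apply]
  tor p := by
    change x.1.symm (tor p) = tor (x.2.2.symm p)
    rw [Homeomorph.symm_apply_eq, hx.tor, Homeomorph.apply_symm_apply]
  tor_add p t := by
    change x.2.2.symm (p, t + 1) = ((x.2.2.symm (p, t)).1, (x.2.2.symm (p, t)).2 + 1)
    rw [Homeomorph.symm_apply_eq, hx.tor_add, Prod.mk.eta, Homeomorph.apply_symm_apply]

lemma shift_mul (r s r' s' : ℤ) : shift r s * shift r' s' = shift (r + r') (s + s') := by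
  refine Prod.ext rfl (Prod.ext ?_ ?_)
  · apply Homeomorph.ext
    intro t
    change t + (r' : ℝ) + (r : ℝ) = t + ((r + r' : ℤ) : ℝ)
    push_cast
    ring
  · apply Homeomorph.ext
    intro p
    refine Prod.ext rfl ?_
    change p.2 + (s' : ℝ) + (s : ℝ) = p.2 + ((s + s' : ℤ) : ℝ)
    push_cast
    ring

lemma shift_zero : shift 0 0 = 1 := by
  refine Prod.ext rfl (Prod.ext ?_ ?_)
  · apply Homeomorph.ext
    intro t
    change t + ((0 : ℤ) : ℝ) = t
    simp
  · apply Homeomorph.ext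
    intro p
    refine Prod.ext rfl ?_
    change p.2 + ((0 : ℤ) : ℝ) = p.2
    simp

lemma shift_inv (r s : ℤ) : (shift r s)⁻¹ = shift (-r) (-s) := by
  rw [inv_eq_iff_mul_eq_one, shift_mul, add_neg_cancel, add_neg_cancel, shift_zero]

lemma shift_inj {r s r' s' : ℤ} (h : shift r s = shift r' s') : r = r' ∧ s = s' := by
  constructor
  · have h1 := congrArg (fun x : Triple => x.2.1 0) h
    change (0 : ℝ) + (r : ℝ) = 0 + (r' : ℝ) at h1
    rw [zero_add, zero_add] at h1
    exact_mod_cast h1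
  · have h1 := congrArg (fun x : Triple => (x.2.2 (⟨0, by simp⟩, 0)).2) h
    change (0 : ℝ) + (s : ℝ) = 0 + (s' : ℝ) at h1
    rw [zero_add, zero_add] at h1
    exact_mod_cast h1

lemma circ_add_int {u : ℝ ≃ₜ ℝ} (h : ∀ t, u (t + 1) = u t + 1) (n : ℤ) (t : ℝ) :
    u (t + n) = u t + n := by
  induction n using Int.induction_on with
  | zero => simp
  | succ n ih =>
    push_cast at ih ⊢
    rw [← add_assoc, h, ih]
    ring
  | pred n ih =>
    have h1 := h (t + ((-(n : ℤ) - 1 : ℤ) : ℝ))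
    have h2 : t + ((-(n : ℤ) - 1 : ℤ) : ℝ) + 1 = t + ((-(n : ℤ) : ℤ) : ℝ) := by
      push_cast
      ring
    rw [h2, ih] at h1
    push_cast at h1 ⊢
    linarith

lemma tor_add_int {v : (Disc × ℝ) ≃ₜ (Disc × ℝ)}
    (h : ∀ p t, v (p, t + 1) = ((v (p, t)).1, (v (p, t)).2 + 1)) (n : ℤ) (p : Disc) (t : ℝ) :
    v (p, t + n) = ((v (p, t)).1, (v (p, t)).2 + n) := by
  induction n using Int.induction_on with
  | zero => simp
  | succ n ih =>
    push_cast at ih ⊢
    rw [← add_assoc, h, ih]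
    refine Prod.ext rfl ?_
    simp only
    ring
  | pred n ih =>
    have h1 := h p (t + ((-(n : ℤ) - 1 : ℤ) : ℝ))
    have h2 : t + ((-(n : ℤ) - 1 : ℤ) : ℝ) + 1 = t + ((-(n : ℤ) : ℤ) : ℝ) := by
      push_cast
      ring
    rw [h2, ih] at h1
    have h3 := congrArg Prod.fst h1
    have h4 := congrArg Prod.snd h1
    simp only at h3 h4
    refine Prod.ext h3.symm ?_
    simp only
    push_cast at h4 ⊢
    linarith

/-- The translations are central. -/
lemma shift_comm {x : Triple} (hx : IsLifted x) (r s : ℤ) : x * shift r s = shift r s * x := by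
  refine Prod.ext ?_ (Prod.ext ?_ ?_)
  · change x.1 * 1 = 1 * x.1
    rw [mul_one, one_mul]
  · apply Homeomorph.ext
    intro t
    exact circ_add_int hx.circ_add r t
  · apply Homeomorph.ext
    rintro ⟨p, t⟩
    exact tor_add_int hx.tor_add s p t

/-- A continuous function with integral values on a connected space is constant. -/
lemma const_of_int {X : Type*} [TopologicalSpace X] [PreconnectedSpace X] (f : X → ℝ)
    (hf : Continuous f) (h : ∀ x, ∃ n : ℤ, f x = n) (x y : X) : f x = f y := by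
  choose g hg using h
  have hgc : Continuous g := by
    rw [Int.isClosedEmbedding_coe_real.isInducing.continuous_iff]
    exact hf.congr hg
  have h3 := ((IsLocallyConstant.iff_continuous g).2 hgc).apply_eq_of_preconnectedSpace x y
  rw [hg, hg, h3]

instance : PreconnectedSpace Disc := by
  have h : {p : ℂ | ‖p‖ < 1} = Metric.ball 0 1 := by
    ext p
    simp
  have h1 : IsPreconnected {p : ℂ | ‖p‖ < 1} := by
    rw [h]
    exact (convex_ball (0 : ℂ) 1).isPreconnected
  exact isPreconnected_iff_preconnectedSpace.1 h1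

lemma circ_eq {s t : ℝ} (h : circ s = circ t) : ∃ n : ℤ, s = t + n := by
  have h1 := congrArg (fun x : S3 => x.1.1) h
  exact (e_eq_iff s t).1 h1

lemma tor_eq {x y : Disc × ℝ} (h : tor x = tor y) : x.1 = y.1 ∧ ∃ n : ℤ, x.2 = y.2 + n := by
  have h1 : x.1 = y.1 := by
    have h2 := congrArg (fun x : S3 => x.1.1) h
    exact Subtype.ext h2
  refine ⟨h1, ?_⟩
  have h2 := congrArg (fun x : S3 => x.1.2) h
  change (Real.sqrt (1 - ‖(x.1 : ℂ)‖ ^ 2) : ℂ) * e x.2 =
    (Real.sqrt (1 - ‖(y.1 : ℂ)‖ ^ 2) : ℂ) * e y.2 at h2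
  rw [h1] at h2
  have h3 : 0 < Real.sqrt (1 - ‖(y.1 : ℂ)‖ ^ 2) := by
    apply Real.sqrt_pos.2
    have := y.1.2
    have h0 := norm_nonneg (y.1 : ℂ)
    nlinarith
  have h4 : ((Real.sqrt (1 - ‖(y.1 : ℂ)‖ ^ 2) : ℝ) : ℂ) ≠ 0 := by exact_mod_cast h3.ne'
  exact (e_eq_iff _ _).1 (mul_left_cancel₀ h4 h2)

/-- Two lifted triples of the same homeomorphism differ by a translation. -/
lemma lift_unique {x y : Triple} (hx : IsLifted x) (hy : IsLifted y) (h : x.1 = y.1) :
    ∃ r s : ℤ, x = y * shift r s := by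
  have h1 : ∀ t, ∃ n : ℤ, x.2.1 t - y.2.1 t = n := by
    intro t
    obtain ⟨n, hn⟩ := circ_eq (s := x.2.1 t) (t := y.2.1 t) (by rw [← hx.circ, ← hy.circ, h])
    exact ⟨n, by rw [hn]; ring⟩
  have h2 : ∀ p, (x.2.2 p).1 = (y.2.2 p).1 ∧ ∃ n : ℤ, (x.2.2 p).2 = (y.2.2 p).2 + n := by
    intro p
    exact tor_eq (by rw [← hx.tor, ← hy.tor, h])
  have h2' : ∀ p, ∃ n : ℤ, (x.2.2 p).2 - (y.2.2 p).2 = n := by
    intro p
    obtain ⟨n, hn⟩ := (h2 p).2
    exact ⟨n, by rw [hn]; ring⟩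
  have c1 := const_of_int (fun t => x.2.1 t - y.2.1 t) (by fun_prop) h1
  have c2 := const_of_int (fun p => (x.2.2 p).2 - (y.2.2 p).2) (by fun_prop) h2'
  obtain ⟨r, hr⟩ := h1 0
  obtain ⟨s, hs⟩ := h2' (⟨0, by simp⟩, 0)
  refine ⟨r, s, ?_⟩
  rw [shift_comm hy]
  refine Prod.ext ?_ (Prod.ext ?_ ?_)
  · exact h
  · apply Homeomorph.ext
    intro t
    change x.2.1 t = y.2.1 t + (r : ℝ)
    have := c1 t 0
    rw [hr] at this
    linarith
  · apply Homeomorph.ext
    intro p
    refine Prod.ext (h2 p).1 ?_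
    change (x.2.2 p).2 = (y.2.2 p).2 + (s : ℝ)
    have := c2 p (⟨0, by simp⟩, 0)
    rw [hs] at this
    linarith

end Pool.Agent.H64.NB
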