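import Pool.Agent.H64.NB.Grp
import Pool.Agent.H8.SV.Basic

/-!
# The 4-cycle of the nilpotent group

`a, b` generate the centre, `s, t` generate `ℤ²`, `A, B` act on `s` and `t` by
`A⁻¹ s A = a⁻¹ s`, `A⁻¹ t A = a⁻¹ b⁻¹ t`, `B⁻¹ s B = s`, `B⁻¹ t B = a⁻¹ b⁻² t`. Let `T(x, y, z)` be the
3-cycle of the torus of three commuting elements. The 4-chains used are the product `sh` of a pair
of pants `[x | y]` with the torus of `s` and `t`, with the boundary
`T(x, s, t) + T(y, s, t) - T(x y, s, t)`, and the conjugation `con d c`, with the boundary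
`c - d c d⁻¹` for a 3-cycle `c`.
The cycle is the sum of `sh a b s t`, of `- sh a b s t'` with `t' = a⁻¹ b⁻¹ t`, and of the 4-chains
joining the boundaries `T(x, s, t)` and `T(x, s, t')` for `x = a`, `x = b` and `x = a b`.
-/

namespace Pool.Agent.H64.NB

open Pool.Agent.H8.SV

/-- A 4-tuple. -/
def tup4 (p : Nil × Nil × Nil × Nil) : Fin 4 → Nil := ![p.1, p.2.1, p.2.2.1, p.2.2.2]

/-- A 3-tuple. -/
def tup3 (p : Nil × Nil × Nil) : Fin 3 → Nil := ![p.1, p.2.1, p.2.2]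

/-- The 4-chain of a list. -/
noncomputable def ch4 (l : List (ℤ × Nil × Nil × Nil × Nil)) : Chain ℤ Nil 4 :=
  (l.map fun p => Finsupp.single (tup4 p.2) p.1).sum

/-- The 3-chain of a list. -/
noncomputable def ch3 (l : List (ℤ × Nil × Nil × Nil)) : Chain ℤ Nil 3 :=
  (l.map fun p => Finsupp.single (tup3 p.2) p.1).sum

/-- The negative. -/
def neg4 (l : List (ℤ × Nil × Nil × Nil × Nil)) : List (ℤ × Nil × Nil × Nil × Nil) :=
  l.map fun p => (-p.1, p.2)

/-- The shuffles of `[x | y]` and `[u | v]`. -/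
def sh1 (x y u v : Nil) : List (ℤ × Nil × Nil × Nil × Nil) :=
  [(1, x, y, u, v), (-1, x, u, y, v), (1, x, u, v, y), (1, u, x, y, v), (-1, u, x, v, y),
    (1, u, v, x, y)]

/-- The product of `[x | y]` and of `[s | t] - [t | s]`. -/
def sh (x y s t : Nil) : List (ℤ × Nil × Nil × Nil × Nil) := sh1 x y s t ++ neg4 (sh1 x y t s)

/-- The torus of three commuting elements. -/
def tor3 (x y z : Nil) : List (ℤ × Nil × Nil × Nil) :=
  [(1, x, y, z), (-1, x, z, y), (-1, y, x, z), (1, y, z, x), (1, z, x, y), (-1, z, y, x)]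

/-- The conjugation by `d`. -/
def con (d : Nil) (l : List (ℤ × Nil × Nil × Nil)) : List (ℤ × Nil × Nil × Nil × Nil) :=
  l.flatMap fun p => [(p.1, d, p.2.1, p.2.2.1, p.2.2.2),
    (-p.1, d * p.2.1 * d⁻¹, d, p.2.2.1, p.2.2.2),
    (p.1, d * p.2.1 * d⁻¹, d * p.2.2.1 * d⁻¹, d, p.2.2.2),
    (-p.1, d * p.2.1 * d⁻¹, d * p.2.2.1 * d⁻¹, d * p.2.2.2 * d⁻¹, d)]

/-- A central element. -/
def ea : Nil := ⟨1, 0, 0, 0, 0, 0⟩
/-- A central element. -/
def eb : Nil := ⟨0, 1, 0, 0, 0, 0⟩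
/-- An element of the abelian normal subgroup. -/
def eA : Nil := ⟨0, 0, 1, 0, 0, 0⟩
/-- An element of the abelian normal subgroup. -/
def eB : Nil := ⟨0, 0, 0, 1, 0, 0⟩
/-- A generator of `ℤ²`. -/
def es : Nil := ⟨0, 0, 0, 0, 1, 0⟩
/-- A generator of `ℤ²`. -/
def et : Nil := ⟨0, 0, 0, 0, 0, 1⟩
/-- `t' = a⁻¹ b⁻¹ t` -/
def et' : Nil := ⟨-1, -1, 0, 0, 0, 1⟩
/-- `a⁻¹ s` -/
def es1 : Nil := ⟨-1, 0, 0, 0, 1, 0⟩
/-- `a⁻¹ b⁻² t` -/
def et2 : Nil := ⟨-1, -2, 0, 0, 0, 1⟩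

/-- The cycle. -/
def cyc : List (ℤ × Nil × Nil × Nil × Nil) :=
  sh ea eb es et ++ neg4 (sh ea eb es et') ++
    neg4 (con eA⁻¹ (tor3 ea es et)) ++ neg4 (sh es1 ea et' ea) ++
    neg4 (con eB⁻¹ (tor3 eb es et)) ++ neg4 (sh et2 eb eb es) ++
    neg4 (sh et' (ea * eb) (ea * eb) es)

/-- The boundary of a term. -/
def bd4 (p : ℤ × Nil × Nil × Nil × Nil) : List (ℤ × Nil × Nil × Nil) :=
  [(p.1, p.2.2.1, p.2.2.2.1, p.2.2.2.2),
    (-p.1, p.2.1 * p.2.2.1, p.2.2.2.1, p.2.2.2.2),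
    (p.1, p.2.1, p.2.2.1 * p.2.2.2.1, p.2.2.2.2),
    (-p.1, p.2.1, p.2.2.1, p.2.2.2.1 * p.2.2.2.2),
    (p.1, p.2.1, p.2.2.1, p.2.2.2.1)]

/-- Adding a term to a reduced list. -/
def ins {K : Type} [DecidableEq K] : List (ℤ × K) → ℤ × K → List (ℤ × K)
  | [], p => [p]
  | q :: l, p => if q.2 = p.2 then (if q.1 + p.1 = 0 then l else (q.1 + p.1, q.2) :: l)
      else q :: ins l p

set_option maxRecDepth 100000 in
lemma red_cyc : (cyc.flatMap bd4).foldl ins [] = [] := by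
  decide +kernel

lemma ch3_ins (l : List (ℤ × Nil × Nil × Nil)) (p : ℤ × Nil × Nil × Nil) :
    ch3 (ins l p) = ch3 l + Finsupp.single (tup3 p.2) p.1 := by
  induction l with
  | nil => simp [ins, ch3]
  | cons q l ih =>
    unfold ins
    split_ifs with h1 h2
    · have h3 : p.1 = -q.1 := by omega
      simp only [ch3, List.map_cons, List.sum_cons]
      rw [h1, h3, Finsupp.single_neg]
      abel
    · simp only [ch3, List.map_cons, List.sum_cons]
      rw [h1, Finsupp.single_add]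
      abel
    · simp only [ch3, List.map_cons, List.sum_cons] at ih ⊢
      rw [ih]
      abel

lemma ch3_foldl (l : List (ℤ × Nil × Nil × Nil)) : ∀ m : List (ℤ × Nil × Nil × Nil),
    ch3 (l.foldl ins m) = ch3 m + ch3 l := by
  induction l with
  | nil => intro m; simp [ch3]
  | cons q l ih =>
    intro m
    rw [List.foldl_cons, ih, ch3_ins]
    simp only [ch3, List.map_cons, List.sum_cons]
    abel

lemma bdry_tup4 (p : ℤ × Nil × Nil × Nil × Nil) :
    bdry ℤ Nil 3 (Finsupp.single (tup4 p.2) p.1) = ch3 (bd4 p) := by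
  obtain ⟨c, g0, g1, g2, g3⟩ := p
  have f0 : face (tup4 (g0, g1, g2, g3)) 0 = tup3 (g1, g2, g3) := by
    funext k; fin_cases k <;> rfl
  have f1 : face (tup4 (g0, g1, g2, g3)) 1 = tup3 (g0 * g1, g2, g3) := by
    funext k; fin_cases k <;> rfl
  have f2 : face (tup4 (g0, g1, g2, g3)) 2 = tup3 (g0, g1 * g2, g3) := by
    funext k; fin_cases k <;> rfl
  have f3 : face (tup4 (g0, g1, g2, g3)) 3 = tup3 (g0, g1, g2 * g3) := by
    funext k; fin_cases k <;> rfl
  have f4 : face (tup4 (g0, g1, g2, g3)) 4 = tup3 (g0, g1, g2) := by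
    funext k; fin_cases k <;> rfl
  rw [bdry_single, bdrySingle, Fin.sum_univ_five, f0, f1, f2, f3, f4]
  simp only [ch3, bd4, List.map_cons, List.map_nil, List.sum_cons, List.sum_nil, smul_add,
    Finsupp.smul_single, smul_eq_mul, add_zero, add_assoc]
  norm_num

lemma ch3_append (l m : List (ℤ × Nil × Nil × Nil)) : ch3 (l ++ m) = ch3 l + ch3 m := by
  simp [ch3]

lemma bdry_ch4 (l : List (ℤ × Nil × Nil × Nil × Nil)) :
    bdry ℤ Nil 3 (ch4 l) = ch3 (l.flatMap bd4) := by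
  induction l with
  | nil => simp [ch4, ch3]
  | cons p l ih =>
    rw [List.flatMap_cons, ch3_append, ← ih, ← bdry_tup4, ← map_add]
    simp [ch4]

/-- The chain is a cycle. -/
theorem bdry_cyc : bdry ℤ Nil 3 (ch4 cyc) = 0 := by
  have h := ch3_foldl (cyc.flatMap bd4) []
  rw [red_cyc] at h
  rw [bdry_ch4]
  have h1 : ch3 [] = 0 := rfl
  rw [h1, zero_add] at h
  exact h.symm

/-- The evaluation of a cochain. -/
lemma sum_ch4 (φ : (Fin 4 → Nil) → ℤ) (l : List (ℤ × Nil × Nil × Nil × Nil)) :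
    (ch4 l).sum (fun g a => a * φ g) = (l.map fun p => p.1 * φ (tup4 p.2)).sum := by
  induction l with
  | nil => simp [ch4]
  | cons p l ih =>
    have h : ch4 (p :: l) = Finsupp.single (tup4 p.2) p.1 + ch4 l := by simp [ch4]
    rw [h, Finsupp.sum_add_index', Finsupp.sum_single_index, ih, List.map_cons, List.sum_cons]
    · simp
    · intro g; simp
    · intro g a b; ring

end Pool.Agent.H64.NB
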