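import Pool.Agent.H79.FB.Defs
import Pool.Agent.H8.SV.Basic

/-!
# Flat `S^3`-bundles preserving a great circle over a general base: definitions for the statement
-/

namespace Pool.Agent.H64.NB

open Pool.Agent.H79.FB Pool.Agent.H8.SV

/-- A `C^0`-flat oriented `S^3`-bundle with the holonomy `hol : Γ → Homeo_0(S^3)`, which preserves the
great circle `R` of the fibre: `lift g` is the homeomorphism `hol g` with lifts of its restrictions
to `R` and to `S^3 \ R` (homotopy equivalent to a circle) to the universal covers. The lifts are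
multiplicative up to the translations by the integers `xR g k` and `xA g k`: the cocycles `xR`, `xA`
represent the Euler classes in `H^2(Γ; ℤ)` of the flat bundles with the fibres `R` and `S^3 \ R`. -/
structure FlatS3 (Γ : Type) [Group Γ] where
  hol : Γ →* (S3 ≃ₜ S3)
  lift : Γ → Triple
  lift_fst : ∀ g, (lift g).1 = hol g
  lifted : ∀ g, IsLifted (lift g)
  lift_one : lift 1 = 1
  xR : Γ → Γ → ℤ
  xA : Γ → Γ → ℤ
  mul : ∀ g k, lift g * lift k = lift (g * k) * shift (xR g k) (xA g k)

/-- The value of the class `x ∪ y` on an integral 4-cycle of the group (bar complex). -/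
noncomputable def cup {Γ : Type} (x y : Γ → Γ → ℤ) (z : Chain ℤ Γ 4) : ℤ :=
  z.sum fun g a => a * (x (g 0) (g 1) * y (g 2) (g 3))

/-- The Euler number over the 4-cycle `z`: `x_R ∪ x_A`. -/
noncomputable def FlatS3.euler {Γ : Type} [Group Γ] (E : FlatS3 Γ) (z : Chain ℤ Γ 4) : ℤ :=
  cup E.xR E.xA z

/-- The Pontryagin number over the 4-cycle `z`: `x_R ∪ x_R + x_A ∪ x_A`. -/
noncomputable def FlatS3.pontryagin {Γ : Type} [Group Γ] (E : FlatS3 Γ) (z : Chain ℤ Γ 4) : ℤ :=
  cup E.xR E.xR z + cup E.xA E.xA z

end Pool.Agent.H64.NB
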