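import Pool.Agent.H79.FB.Final

/-!
# Translations of the plane as homeomorphisms of the closed disc and of `S^3`

The map `w ↦ w / √(1 + |w|²)` identifies the plane `ℂ` with the open unit disc. The translation of
the plane by `u` extends to the closed disc by the identity on the boundary: it is
`p ↦ (p + s u) / √(s² + |p + s u|²)` with `s = √(1 - |p|²)`.
-/

namespace Pool.Agent.H64.NB

open Pool.Agent.H79.FB

/-- `√(1 - |p|²)` -/
noncomputable def hs (p : CDisc) : ℝ := Real.sqrt (1 - ‖(p : ℂ)‖ ^ 2)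

lemma hs_nonneg (p : CDisc) : 0 ≤ hs p := Real.sqrt_nonneg _

lemma hs_sq (p : CDisc) : hs p ^ 2 = 1 - ‖(p : ℂ)‖ ^ 2 := Real.sq_sqrt (sq_le_one p)

/-- `p + s u` -/
noncomputable def hw (u : ℂ) (p : CDisc) : ℂ := p + u * (hs p : ℂ)

/-- `√(s² + |p + s u|²)` -/
noncomputable def hd (u : ℂ) (p : CDisc) : ℝ := Real.sqrt (hs p ^ 2 + ‖hw u p‖ ^ 2)

lemma hd_sq (u : ℂ) (p : CDisc) : hd u p ^ 2 = hs p ^ 2 + ‖hw u p‖ ^ 2 :=
  Real.sq_sqrt (by positivity)

lemma hd_pos (u : ℂ) (p : CDisc) : 0 < hd u p := by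
  apply Real.sqrt_pos.2
  rcases (hs_nonneg p).lt_or_eq with h | h
  · have := sq_nonneg ‖hw u p‖
    have h2 : 0 < hs p ^ 2 := by positivity
    linarith
  · have h1 : hw u p = p := by
      unfold hw
      rw [← h]
      simp
    have h2 := hs_sq p
    rw [← h] at h2
    rw [h1, ← h]
    linarith

lemma hd_ne (u : ℂ) (p : CDisc) : ((hd u p : ℝ) : ℂ) ≠ 0 := by
  exact_mod_cast (hd_pos u p).ne'

lemma norm_quot (u : ℂ) (p : CDisc) :
    ‖hw u p / (hd u p : ℂ)‖ ^ 2 = 1 - (hs p / hd u p) ^ 2 := by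
  have h := hd_pos u p
  have h1 := hd_sq u p
  rw [norm_div, Complex.norm_real, Real.norm_eq_abs, abs_of_pos h, div_pow, div_pow]
  field_simp
  linarith

/-- The translation by `u` on the closed disc. -/
noncomputable def tr (u : ℂ) (p : CDisc) : CDisc := ⟨hw u p / (hd u p : ℂ), by
  have h := norm_quot u p
  have h1 := sq_nonneg (hs p / hd u p)
  have h2 := norm_nonneg (hw u p / (hd u p : ℂ))
  nlinarith⟩

lemma coe_tr (u : ℂ) (p : CDisc) : ((tr u p : CDisc) : ℂ) = hw u p / (hd u p : ℂ) := rfl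

lemma hs_tr (u : ℂ) (p : CDisc) : hs (tr u p) = hs p / hd u p := by
  have h0 : 0 ≤ hs p / hd u p := div_nonneg (hs_nonneg p) (hd_pos u p).le
  unfold hs
  rw [coe_tr, norm_quot, sub_sub_cancel, Real.sqrt_sq h0]
  rfl

lemma hw_tr (u v : ℂ) (p : CDisc) : hw v (tr u p) = hw (u + v) p / (hd u p : ℂ) := by
  have h := hd_ne u p
  unfold hw
  rw [hs_tr, coe_tr]
  unfold hw
  push_cast
  field_simp
  ring

lemma hd_tr (u v : ℂ) (p : CDisc) : hd v (tr u p) = hd (u + v) p / hd u p := by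
  have h := hd_pos u p
  have h1 : hs (tr u p) ^ 2 + ‖hw v (tr u p)‖ ^ 2 =
      (hs p ^ 2 + ‖hw (u + v) p‖ ^ 2) / hd u p ^ 2 := by
    rw [hs_tr, hw_tr, norm_div, Complex.norm_real, Real.norm_eq_abs, abs_of_pos h, div_pow, div_pow]
    ring
  unfold hd
  rw [h1, Real.sqrt_div (by positivity), Real.sqrt_sq h.le]
  rfl

lemma tr_tr (u v : ℂ) (p : CDisc) : tr v (tr u p) = tr (u + v) p := by
  apply Subtype.ext
  have h := hd_ne u p
  rw [coe_tr, coe_tr, hw_tr, hd_tr]
  push_cast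
  rw [div_div_div_cancel_right₀ h]

lemma tr_zero (p : CDisc) : tr 0 p = p := by
  apply Subtype.ext
  have h1 : hw 0 p = p := by
    unfold hw
    simp
  have h2 : hd 0 p = 1 := by
    unfold hd
    rw [h1, hs_sq, sub_add_cancel, Real.sqrt_one]
  rw [coe_tr, h1, h2]
  simp

lemma continuous_hs : Continuous hs := by
  unfold hs
  fun_prop

lemma continuous_tr : Continuous fun y : ℂ × CDisc => tr y.1 y.2 := by
  have h1 : Continuous fun y : ℂ × CDisc => hs y.2 := continuous_hs.comp continuous_snd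
  have h2 : Continuous fun y : ℂ × CDisc => hw y.1 y.2 := by
    unfold hw
    fun_prop
  have h3 : Continuous fun y : ℂ × CDisc => hd y.1 y.2 := by
    unfold hd
    fun_prop
  refine Continuous.subtype_mk (h2.div (by fun_prop) (fun y => hd_ne _ _)) _

/-- The translation by `u` as a homeomorphism of the closed disc. -/
noncomputable def trH (u : ℂ) : CDisc ≃ₜ CDisc where
  toFun := tr u
  invFun := tr (-u)
  left_inv p := by rw [tr_tr, add_neg_cancel, tr_zero]
  right_inv p := by rw [tr_tr, neg_add_cancel, tr_zero]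
  continuous_toFun := by
    have h : Continuous fun p : CDisc => ((u, p) : ℂ × CDisc) := by fun_prop
    exact continuous_tr.comp h
  continuous_invFun := by
    have h : Continuous fun p : CDisc => ((-u, p) : ℂ × CDisc) := by fun_prop
    exact continuous_tr.comp h

lemma hs_pos_iff (p : CDisc) : 0 < hs p ↔ ‖(p : ℂ)‖ < 1 := by
  have h1 := hs_sq p
  have h2 := hs_nonneg p
  have h3 := norm_nonneg (p : ℂ)
  constructor
  · intro h
    by_contra h4
    push Not at h4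
    nlinarith
  · intro h
    unfold hs
    apply Real.sqrt_pos.2
    nlinarith

lemma tr_int (u : ℂ) (p : CDisc) : ‖(tr u p : ℂ)‖ < 1 ↔ ‖(p : ℂ)‖ < 1 := by
  rw [← hs_pos_iff, ← hs_pos_iff, hs_tr]
  have h := hd_pos u p
  constructor
  · intro h1
    have h2 := mul_pos h1 h
    rwa [div_mul_cancel₀ _ h.ne'] at h2
  · intro h1
    exact div_pos h1 h

lemma tr_bdry (u : ℂ) (t : ℝ) : tr u (Pool.Agent.H79.FB.bdry t) = Pool.Agent.H79.FB.bdry t := by
  have h0 : hs (Pool.Agent.H79.FB.bdry t) = 0 := by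
    unfold hs Pool.Agent.H79.FB.bdry
    simp [norm_e]
  apply Subtype.ext
  have h1 : hw u (Pool.Agent.H79.FB.bdry t) = (Pool.Agent.H79.FB.bdry t : CDisc) := by
    unfold hw
    rw [h0]
    simp
  have h2 : hd u (Pool.Agent.H79.FB.bdry t) = 1 := by
    unfold hd
    rw [h1, hs_sq, sub_add_cancel, Real.sqrt_one]
  rw [coe_tr, h1, h2]
  simp

/-- The coordinate `w = p / √(1 - |p|²)` of a point `p` of the open disc. -/
noncomputable def pv (p : Disc) : ℂ := p / (hs (cd p) : ℂ)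

lemma hs_cd_pos (p : Disc) : 0 < hs (cd p) := (hs_pos_iff _).2 (norm_cd_lt p)

lemma continuous_pv : Continuous pv := by
  unfold pv
  have h1 : Continuous fun p : Disc => hs (cd p) := continuous_hs.comp continuous_cd
  refine Continuous.div (by fun_prop) (by fun_prop) (fun p => ?_)
  exact_mod_cast (hs_cd_pos p).ne'

/-- The element of the group `W` given by the translation by `u` and the rotation by the
function `f` of the coordinate of the plane. -/
noncomputable def tw (u : ℂ) (f : C(ℂ, ℝ)) : W where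
  F := trH u
  int := tr_int u
  L := Homeomorph.refl ℝ
  per := fun _ => rfl
  bd := tr_bdry u
  z := ⟨fun p => f (pv p), f.continuous.comp continuous_pv⟩

lemma pv_r (u : ℂ) (f : C(ℂ, ℝ)) (p : Disc) : pv ((tw u f).r p) = pv p + u := by
  have h1 := hs_cd_pos p
  have h2 := hd_ne u (cd p)
  have h3 : ((hs (cd p) : ℝ) : ℂ) ≠ 0 := by exact_mod_cast h1.ne'
  have h4 : cd ((tw u f).r p) = tr u (cd p) := rfl
  have h5 : (((tw u f).r p : Disc) : ℂ) = ((tr u (cd p) : CDisc) : ℂ) := rfl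
  unfold pv
  rw [h4, h5, hs_tr, coe_tr]
  push_cast
  rw [div_div_div_cancel_right₀ h2]
  unfold hw
  rw [coe_cd]
  field_simp

/-- The group law. -/
lemma tw_mul (u v : ℂ) (f g : C(ℂ, ℝ)) :
    tw u f * tw v g = tw (u + v) (g + f.comp ⟨fun w => w + v, by fun_prop⟩) := by
  refine W.ext' (fun p => ?_) (fun t => rfl) (fun p => ?_)
  · change tr u (tr v p) = tr (u + v) p
    rw [tr_tr, add_comm]
  · change f (pv ((tw v g).r p)) + g (pv p) = g (pv p) + f (pv p + v)
    rw [pv_r, add_comm]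

lemma tw_zero : tw 0 0 = 1 := by
  refine W.ext' (fun p => ?_) (fun t => rfl) (fun p => rfl)
  exact tr_zero p

/-- The rotation by an integer number of turns. -/
lemma toT_tw_const (N : ℤ) : toT (tw 0 (ContinuousMap.const ℂ (N : ℝ))) = shift 0 N := by
  rw [← toT_rot_const]
  congr 1
  refine W.ext' (fun p => ?_) (fun t => rfl) (fun p => rfl)
  exact tr_zero p

/-- The homeomorphisms of `S^3` are isotopic to the identity. -/
lemma isotopic_tw (u : ℂ) (f : C(ℂ, ℝ)) : IsotopicToId (toS (tw u f)) := by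
  have h := isotopic_of_family (fun s : unitInterval => tw (((s : ℝ) : ℂ) * u)
    ⟨fun w => (s : ℝ) * f w, by fun_prop⟩) ?_ ?_ ?_
  · have h1 : (((1 : unitInterval) : ℝ) : ℂ) * u = u := by simp
    have h2 : (⟨fun w => ((1 : unitInterval) : ℝ) * f w, by fun_prop⟩ : C(ℂ, ℝ)) = f := by
      ext w
      simp
    rw [h1, h2] at h
    exact h
  · have h1 : Continuous fun y : unitInterval × CDisc =>
        (((((y.1 : unitInterval) : ℝ) : ℂ) * u, y.2) : ℂ × CDisc) := by fun_prop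
    exact continuous_tr.comp h1
  · change Continuous fun y : unitInterval × Disc => ((y.1 : unitInterval) : ℝ) * f (pv y.2)
    have h1 := continuous_pv
    fun_prop
  · intro x
    have h1 : tw ((((0 : unitInterval) : ℝ) : ℂ) * u)
        ⟨fun w => ((0 : unitInterval) : ℝ) * f w, by fun_prop⟩ = 1 := by
      rw [← tw_zero]
      have h2 : (((0 : unitInterval) : ℝ) : ℂ) * u = 0 := by simp
      have h3 : (⟨fun w => ((0 : unitInterval) : ℝ) * f w, by fun_prop⟩ : C(ℂ, ℝ)) = 0 := by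
        ext w
        simp
      rw [h2, h3]
    rw [h1]
    exact smap_one x

lemma isLifted_tw (u : ℂ) (f : C(ℂ, ℝ)) : IsLifted (toT (tw u f)) :=
  isLifted_toT _ (isotopic_tw u f)

/-- The point with the coordinates `w` in the plane and `t` in the circle. -/
noncomputable def pt (w : ℂ) (t : ℝ) : S3 :=
  ⟨(w / (Real.sqrt (1 + ‖w‖ ^ 2) : ℂ), e t / (Real.sqrt (1 + ‖w‖ ^ 2) : ℂ)), by
    have h : 0 < Real.sqrt (1 + ‖w‖ ^ 2) := Real.sqrt_pos.2 (by positivity)
    have h1 : Real.sqrt (1 + ‖w‖ ^ 2) ^ 2 = 1 + ‖w‖ ^ 2 := Real.sq_sqrt (by positivity)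
    simp only [norm_div, Complex.norm_real, Real.norm_eq_abs, abs_of_pos h, norm_e, div_pow, h1]
    field_simp
    ring⟩

lemma pt_pv (p : Disc) (t : ℝ) : tor (p, t) = pt (pv p) t := by
  have h1 := hs_cd_pos p
  have h3 : ((hs (cd p) : ℝ) : ℂ) ≠ 0 := by exact_mod_cast h1.ne'
  have h2 : Real.sqrt (1 + ‖pv p‖ ^ 2) = (hs (cd p))⁻¹ := by
    have h4 := hs_sq (cd p)
    have h5 : 1 + ‖pv p‖ ^ 2 = ((hs (cd p))⁻¹) ^ 2 := by
      unfold pv
      rw [norm_div, Complex.norm_real, Real.norm_eq_abs, abs_of_pos h1]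
      field_simp
      rw [h4]
      simp
    rw [h5, Real.sqrt_sq (by positivity)]
  apply S3_ext
  · change (p : ℂ) = pv p / _
    rw [h2]
    unfold pv
    push_cast
    field_simp
  · change (Real.sqrt (1 - ‖(p : ℂ)‖ ^ 2) : ℂ) * e t = e t / _
    rw [h2]
    change ((hs (cd p) : ℝ) : ℂ) * e t = _
    push_cast
    field_simp

lemma pv_surj (w : ℂ) : ∃ p : Disc, pv p = w := by
  have h0 : 0 < 1 + ‖w‖ ^ 2 := by positivity
  have h : 0 < Real.sqrt (1 + ‖w‖ ^ 2) := Real.sqrt_pos.2 h0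
  have h1 : Real.sqrt (1 + ‖w‖ ^ 2) ^ 2 = 1 + ‖w‖ ^ 2 := Real.sq_sqrt h0.le
  have h2 : ‖w / (Real.sqrt (1 + ‖w‖ ^ 2) : ℂ)‖ ^ 2 = 1 - 1 / (1 + ‖w‖ ^ 2) := by
    rw [norm_div, Complex.norm_real, Real.norm_eq_abs, abs_of_pos h, div_pow, h1]
    field_simp
    ring
  have h3 : ‖w / (Real.sqrt (1 + ‖w‖ ^ 2) : ℂ)‖ < 1 := by
    have h4 := norm_nonneg (w / (Real.sqrt (1 + ‖w‖ ^ 2) : ℂ))
    have h5 : 0 < 1 / (1 + ‖w‖ ^ 2) := by positivity
    nlinarith
  refine ⟨⟨_, h3⟩, ?_⟩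
  have h6 : hs (cd ⟨w / (Real.sqrt (1 + ‖w‖ ^ 2) : ℂ), h3⟩) = (Real.sqrt (1 + ‖w‖ ^ 2))⁻¹ := by
    unfold hs
    rw [coe_cd]
    change Real.sqrt (1 - ‖w / (Real.sqrt (1 + ‖w‖ ^ 2) : ℂ)‖ ^ 2) = _
    rw [h2, sub_sub_cancel, one_div, Real.sqrt_inv]
  unfold pv
  rw [h6]
  have h7 : ((Real.sqrt (1 + ‖w‖ ^ 2) : ℝ) : ℂ) ≠ 0 := by exact_mod_cast h.ne'
  push_cast
  change w / _ / _ = w
  field_simp

/-- The action in the coordinates of the plane. -/
lemma toT_tw_pt (u : ℂ) (f : C(ℂ, ℝ)) (w : ℂ) (t : ℝ) :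
    (toT (tw u f)).1 (pt w t) = pt (w + u) (t + f w) := by
  obtain ⟨p, rfl⟩ := pv_surj w
  rw [← pt_pv]
  change smap (tw u f) (tor (p, t)) = _
  rw [smap_tor, W.toA_apply, pt_pv]
  simp only
  rw [pv_r]
  rfl

/-- The circle `R` is fixed pointwise. -/
lemma toT_tw_circ (u : ℂ) (f : C(ℂ, ℝ)) (t : ℝ) : (toT (tw u f)).1 (circ t) = circ t :=
  smap_circ _ _

end Pool.Agent.H64.NB
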