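import Pool.Agent.H8.SV.Basic

/-!
# The `l^1`-seminorm of cycles of groups with Følner sets

For a finite set `F ≠ ∅` of the group, let `P` be the average over `g ∈ F` of the maps
`[h_1 | h_2 | ...] ↦ [g | h_1 | h_2 | ...]`. For a cycle `c = ∑ c_h [h_1 | h_2 | ...]`
`c - ∂ P c = ∑ c_h |F|⁻¹ ∑_{g ∈ F} ([g h_1 | h_2 | ...] - [g | h_2 | ...])`, and the norm of the inner
sum is at most the number of elements of `F h_1 \ F` and of `F \ F h_1`.
-/

namespace Pool.Agent.H64.NB

open Pool.Agent.H8.SV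

set_option linter.unusedSectionVars false

variable {G : Type} [Group G] {n : ℕ}

/-- The map `[h_1 | h_2 | ...] ↦ [g | h_1 | h_2 | ...]`. -/
noncomputable def pre (g : G) : Chain ℝ G n →ₗ[ℝ] Chain ℝ G (n + 1) :=
  Finsupp.lmapDomain ℝ ℝ (fun h => (Fin.cons g h : Fin (n + 1) → G))

lemma pre_single (g : G) (h : Fin n → G) (a : ℝ) :
    pre g (Finsupp.single h a) = Finsupp.single (Fin.cons g h : Fin (n + 1) → G) a := by
  unfold pre
  rw [Finsupp.lmapDomain_apply, Finsupp.mapDomain_single]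

lemma face_cons_zero (g : G) (h : Fin (n + 1) → G) :
    face (Fin.cons g h : Fin (n + 2) → G) 0 = h := rfl

lemma face_cons_one (g : G) (h : Fin (n + 1) → G) :
    face (Fin.cons g h : Fin (n + 2) → G) 1 = Fin.cons (g * h 0) (fun k : Fin n => h k.succ) := by
  funext k
  have h1 : (1 : Fin (n + 3)) = Fin.succ 0 := rfl
  rw [h1]
  simp only [face, Fin.cases_succ]
  refine Fin.cases ?_ (fun k => ?_) k
  · simp [Fin.contractNth]
  · rw [Fin.contractNth_apply_of_gt]
    · simp
    · simp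

lemma face_cons_succ (g : G) (h : Fin (n + 1) → G) (i : Fin (n + 1)) :
    face (Fin.cons g h : Fin (n + 2) → G) i.succ.succ = Fin.cons g (face h i.succ) := by
  funext k
  simp only [face, Fin.cases_succ]
  refine Fin.cases ?_ (fun k => ?_) k
  · rw [Fin.contractNth_apply_of_lt]
    · simp
    · simp
  · simp only [Fin.cons_succ]
    rcases lt_trichotomy (k : ℕ) (i : ℕ) with hlt | heq | hgt
    · rw [Fin.contractNth_apply_of_lt _ _ _ _ (by simpa using hlt),
        Fin.contractNth_apply_of_lt _ _ _ _ (by simpa using hlt)]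
      rw [← Fin.succ_castSucc, Fin.cons_succ]
    · rw [Fin.contractNth_apply_of_eq _ _ _ _ (by simpa using heq),
        Fin.contractNth_apply_of_eq _ _ _ _ (by simpa using heq)]
      rw [← Fin.succ_castSucc, Fin.cons_succ, Fin.cons_succ]
    · rw [Fin.contractNth_apply_of_gt _ _ _ _ (by simpa using hgt),
        Fin.contractNth_apply_of_gt _ _ _ _ (by simpa using hgt)]
      rw [Fin.cons_succ]

lemma bdrySingle_cons (g : G) (h : Fin (n + 1) → G) :
    bdrySingle ℝ (Fin.cons g h : Fin (n + 2) → G) = Finsupp.single h 1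
      - Finsupp.single (Fin.cons (g * h 0) (fun k : Fin n => h k.succ)) 1
      + Finsupp.single (Fin.cons g (fun k : Fin n => h k.succ)) 1 - pre g (bdrySingle ℝ h) := by
  unfold bdrySingle
  rw [Fin.sum_univ_succ, Fin.sum_univ_succ, face_cons_zero]
  have h1 : (Fin.succ 0 : Fin (n + 3)) = 1 := rfl
  rw [h1, face_cons_one, map_sum, Fin.sum_univ_succ (n := n + 1)]
  simp only [face_cons_succ, pre_single]
  have h2 : ∀ i : Fin (n + 1), (Finsupp.single (Fin.cons g (face h i.succ) : Fin (n + 1) → G)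
      ((-1 : ℝ) ^ ((i.succ.succ : Fin (n + 3)) : ℕ))) =
      - Finsupp.single (Fin.cons g (face h i.succ) : Fin (n + 1) → G)
      ((-1 : ℝ) ^ ((i.succ : Fin (n + 2)) : ℕ)) := by
    intro i
    rw [← Finsupp.single_neg]
    congr 1
    simp only [Fin.val_succ]
    ring
  rw [Finset.sum_congr rfl (fun i _ => h2 i), Finset.sum_neg_distrib]
  have h3 : face h 0 = fun k : Fin n => h k.succ := rfl
  rw [h3]
  have h4 : (Finsupp.single (Fin.cons (g * h 0) (fun k : Fin n => h k.succ) : Fin (n + 1) → G)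
      ((-1 : ℝ) ^ ((1 : Fin (n + 3)) : ℕ))) =
      - Finsupp.single (Fin.cons (g * h 0) (fun k : Fin n => h k.succ) : Fin (n + 1) → G) 1 := by
    rw [← Finsupp.single_neg]
    simp
  rw [h4]
  simp only [Fin.val_zero, pow_zero]
  abel

/-- The defect of `[g h_1 | h_2 | ...] - [g | h_2 | ...]`. -/
noncomputable def dft (g : G) : Chain ℝ G (n + 1) →ₗ[ℝ] Chain ℝ G (n + 1) :=
  Finsupp.linearCombination ℝ (fun h =>
    Finsupp.single (Fin.cons (g * h 0) (fun k : Fin n => h k.succ)) 1
      - Finsupp.single (Fin.cons g (fun k : Fin n => h k.succ)) 1)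

lemma bdry_pre (g : G) (c : Chain ℝ G (n + 1)) :
    bdry ℝ G (n + 1) (pre g c) = c - dft g c - pre g (bdry ℝ G n c) := by
  induction c using Finsupp.induction_linear with
  | zero => simp
  | add y z hy hz =>
    rw [map_add, map_add, map_add, map_add, map_add, hy, hz]
    abel
  | single h a =>
    rw [pre_single, bdry_single, bdry_single, bdrySingle_cons, dft,
      Finsupp.linearCombination_single, map_smul]
    have h1 : (Finsupp.single h a : Chain ℝ G (n + 1)) = a • Finsupp.single h 1 := by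
      rw [Finsupp.smul_single, smul_eq_mul, mul_one]
    rw [h1, smul_sub, smul_sub, smul_add, smul_sub]
    abel

lemma norm1_neg (c : Chain ℝ G n) : norm1 (-c) = norm1 c := by
  have h := norm1_smul (-1 : ℝ) c
  rw [neg_one_smul, abs_neg, abs_one, one_mul] at h
  exact h

lemma norm1_sum_le {ι : Type} (s : Finset ι) (f : ι → Chain ℝ G n) :
    norm1 (∑ i ∈ s, f i) ≤ ∑ i ∈ s, norm1 (f i) := by
  classical
  induction s using Finset.induction_on with
  | empty => simp [norm1_zero]
  | insert i s hi ih =>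
    rw [Finset.sum_insert hi, Finset.sum_insert hi]
    exact (norm1_add_le _ _).trans (by linarith)

/-- The norm of the difference of two sums over finite sets with the same number of elements. -/
lemma norm1_diff_le [DecidableEq G] (F : Finset G) (h : G) (t : Fin n → G) :
    norm1 (∑ g ∈ F, (Finsupp.single (Fin.cons (g * h) t : Fin (n + 1) → G) (1 : ℝ)
      - Finsupp.single (Fin.cons g t : Fin (n + 1) → G) 1)) ≤
      2 * ((F.image (· * h) \ F).card : ℝ) := by
  have hinj : Function.Injective (fun g : G => g * h) := mul_left_injective h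
  have h1 : ∑ g ∈ F, (Finsupp.single (Fin.cons (g * h) t : Fin (n + 1) → G) (1 : ℝ)) =
      ∑ x ∈ F.image (· * h), Finsupp.single (Fin.cons x t : Fin (n + 1) → G) (1 : ℝ) := by
    rw [Finset.sum_image (fun _ _ _ _ hxy => hinj hxy)]
  have hcard : (F \ F.image (· * h)).card = (F.image (· * h) \ F).card := by
    have h2 : (F.image (· * h)).card = F.card := Finset.card_image_of_injective F hinj
    have h3 := Finset.card_sdiff_add_card_inter F (F.image (· * h))
    have h4 := Finset.card_sdiff_add_card_inter (F.image (· * h)) F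
    rw [Finset.inter_comm] at h4
    omega
  rw [Finset.sum_sub_distrib, h1, ← Finset.sum_sdiff_sub_sum_sdiff, sub_eq_add_neg]
  refine (norm1_add_le _ _).trans ?_
  rw [norm1_neg]
  have h5 : ∀ s : Finset G, norm1 (∑ x ∈ s,
      Finsupp.single (Fin.cons x t : Fin (n + 1) → G) (1 : ℝ)) ≤ s.card := by
    intro s
    refine (norm1_sum_le _ _).trans ?_
    simp [norm1_single]
  have h6 := h5 (F.image (· * h) \ F)
  have h7 := h5 (F \ F.image (· * h))
  rw [hcard] at h7
  linarith

/-- Cycles of a group with Følner sets have small representatives. -/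
theorem small_of_folner [DecidableEq G] (c : Chain ℝ G (n + 1)) (hc : bdry ℝ G n c = 0)
    (hF : ∀ ε : ℝ, 0 < ε → ∃ F : Finset G, F.Nonempty ∧ ∀ h ∈ c.support,
      ((F.image (· * h 0) \ F).card : ℝ) ≤ ε * F.card) (ε : ℝ) (hε : 0 < ε) :
    ∃ b : Chain ℝ G (n + 2), norm1 (c + bdry ℝ G (n + 1) b) < ε := by
  have hn : 0 ≤ norm1 c := norm1_nonneg c
  obtain ⟨F, hF0, hF1⟩ := hF (ε / (2 * (norm1 c + 1))) (by positivity)
  have hcard : (0 : ℝ) < F.card := by exact_mod_cast Finset.card_pos.2 hF0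
  refine ⟨-((F.card : ℝ)⁻¹ • ∑ g ∈ F, pre g c), ?_⟩
  have h1 : c + bdry ℝ G (n + 1) (-((F.card : ℝ)⁻¹ • ∑ g ∈ F, pre g c)) =
      (F.card : ℝ)⁻¹ • ∑ g ∈ F, dft g c := by
    rw [map_neg, map_smul, map_sum]
    simp only [bdry_pre, hc, map_zero, sub_zero]
    rw [Finset.sum_sub_distrib, smul_sub, Finset.sum_const, ← Nat.cast_smul_eq_nsmul ℝ,
      smul_smul, inv_mul_cancel₀ hcard.ne', one_smul]
    abel
  rw [h1, norm1_smul, abs_of_pos (inv_pos.2 hcard)]
  have h2 : ∑ g ∈ F, dft g c = ∑ h ∈ c.support, c h • ∑ g ∈ F,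
      (Finsupp.single (Fin.cons (g * h 0) (fun k : Fin n => h k.succ) : Fin (n + 1) → G) (1 : ℝ)
      - Finsupp.single (Fin.cons g (fun k : Fin n => h k.succ) : Fin (n + 1) → G) 1) := by
    have h3 : ∀ g ∈ F, dft g c = ∑ h ∈ c.support, c h •
      (Finsupp.single (Fin.cons (g * h 0) (fun k : Fin n => h k.succ) : Fin (n + 1) → G) (1 : ℝ)
      - Finsupp.single (Fin.cons g (fun k : Fin n => h k.succ) : Fin (n + 1) → G) 1) := by
      intro g _
      rw [dft, Finsupp.linearCombination_apply, Finsupp.sum]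
    rw [Finset.sum_congr rfl h3, Finset.sum_comm]
    simp only [Finset.smul_sum]
  rw [h2]
  have h4 : norm1 (∑ h ∈ c.support, c h • ∑ g ∈ F,
      (Finsupp.single (Fin.cons (g * h 0) (fun k : Fin n => h k.succ) : Fin (n + 1) → G) (1 : ℝ)
      - Finsupp.single (Fin.cons g (fun k : Fin n => h k.succ) : Fin (n + 1) → G) 1)) ≤
      norm1 c * (2 * (ε / (2 * (norm1 c + 1)) * F.card)) := by
    refine (norm1_sum_le _ _).trans ?_
    have h5 : ∀ M : ℝ, norm1 c * M = ∑ h ∈ c.support, |c h| * M := by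
      intro M
      rw [← Finset.sum_mul]
      rfl
    rw [h5]
    refine Finset.sum_le_sum fun h hh => ?_
    rw [norm1_smul]
    refine mul_le_mul_of_nonneg_left ?_ (abs_nonneg _)
    refine (norm1_diff_le F (h 0) _).trans ?_
    have := hF1 h hh
    linarith
  have h5 : (F.card : ℝ)⁻¹ * (norm1 c * (2 * (ε / (2 * (norm1 c + 1)) * F.card))) =
      ε * (norm1 c / (norm1 c + 1)) := by
    field_simp
  have h6 : norm1 c / (norm1 c + 1) < 1 := by
    rw [div_lt_one (by linarith)]
    linarith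
  calc (F.card : ℝ)⁻¹ * norm1 _ ≤
        (F.card : ℝ)⁻¹ * (norm1 c * (2 * (ε / (2 * (norm1 c + 1)) * F.card))) :=
        mul_le_mul_of_nonneg_left h4 (inv_pos.2 hcard).le
    _ = ε * (norm1 c / (norm1 c + 1)) := h5
    _ < ε * 1 := mul_lt_mul_of_pos_left h6 hε
    _ = ε := mul_one ε

open Pointwise in
/-- Polynomial growth gives Følner sets. -/
theorem folner_of_growth [DecidableEq G] (S : Finset G) (h1 : 1 ∈ S) (C d : ℕ)
    (hS : ∀ m : ℕ, (S ^ m).card ≤ C * (m + 1) ^ d) (ε : ℝ) (hε : 0 < ε) :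
    ∃ F : Finset G, F.Nonempty ∧ ∀ h ∈ S,
      ((F.image (· * h) \ F).card : ℝ) ≤ ε * F.card := by
  by_contra hcon
  push Not at hcon
  have hne : ∀ m : ℕ, (S ^ m).Nonempty := fun m => ⟨1, by
    have := Finset.pow_mem_pow (n := m) h1
    simpa using this⟩
  have hstep : ∀ m : ℕ, (1 + ε) * ((S ^ m).card : ℝ) ≤ ((S ^ (m + 1)).card : ℝ) := by
    intro m
    obtain ⟨h, hh, hlt⟩ := hcon (S ^ m) (hne m)
    have hsub : S ^ m ⊆ S ^ (m + 1) := Finset.pow_subset_pow_right h1 (Nat.le_succ m)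
    have hsub2 : (S ^ m).image (· * h) \ S ^ m ⊆ S ^ (m + 1) \ S ^ m := by
      refine Finset.sdiff_subset_sdiff ?_ (le_refl _)
      intro x hx
      rw [Finset.mem_image] at hx
      obtain ⟨g, hg, rfl⟩ := hx
      rw [pow_succ]
      exact Finset.mul_mem_mul hg hh
    have h2 := Finset.card_le_card hsub2
    have h3 := Finset.card_sdiff_add_card_eq_card hsub
    have h4 : (((S ^ m).image (· * h) \ S ^ m).card : ℝ) ≤ (S ^ (m + 1) \ S ^ m).card := by
      exact_mod_cast h2
    have h5 : ((S ^ (m + 1) \ S ^ m).card : ℝ) + (S ^ m).card = (S ^ (m + 1)).card := by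
      exact_mod_cast h3
    linarith
  have hpow : ∀ m : ℕ, (1 + ε) ^ m ≤ ((S ^ m).card : ℝ) := by
    intro m
    induction m with
    | zero => simp
    | succ m ih =>
      rw [pow_succ']
      exact (mul_le_mul_of_nonneg_left ih (by linarith)).trans (hstep m)
  have hle : ∀ m : ℕ, (1 + ε) ^ m ≤ (C : ℝ) * ((m : ℝ) + 1) ^ d := by
    intro m
    refine (hpow m).trans ?_
    exact_mod_cast hS m
  have hlim := tendsto_pow_const_div_const_pow_of_one_lt d (show (1 : ℝ) < 1 + ε by linarith)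
  have hlim2 := (hlim.comp (Filter.tendsto_add_atTop_nat 1)).mul_const ((C : ℝ) * (1 + ε))
  rw [zero_mul] at hlim2
  have hev := (hlim2.eventually (gt_mem_nhds (show (0 : ℝ) < 1 by norm_num))).exists
  obtain ⟨m, hm⟩ := hev
  have h6 := hle m
  have h7 : (0 : ℝ) < (1 + ε) ^ m := by positivity
  simp only [Function.comp_apply] at hm
  have h8 : ((m + 1 : ℕ) : ℝ) ^ d / (1 + ε) ^ (m + 1) * ((C : ℝ) * (1 + ε)) =
      (C : ℝ) * ((m : ℝ) + 1) ^ d / (1 + ε) ^ m := by
    rw [pow_succ]
    push_cast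
    field_simp
  rw [h8, div_lt_one h7] at hm
  linarith

end Pool.Agent.H64.NB
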