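import Pool.Agent.H64.NB.Prod

/-!
# Flat bundles over free products
-/

namespace Pool.Agent.H64.NB

open Pool.Agent.H79.FB Pool.Agent.H8.SV Monoid

/-- The numbers of flat bundles over the group `Γ` and the 4-cycle `z` contain the set `A` of
pairs. -/
def Attained (A : Set (ℤ × ℤ)) : Prop :=
  ∃ (Γ : Type) (_ : Group Γ) (z : Chain ℤ Γ 4), bdry ℤ Γ 3 z = 0 ∧
    ∀ p ∈ A, ∃ E : FlatS3 Γ, E.euler z = p.1 ∧ E.pontryagin z = p.2

section

variable {G H : Type} [Group G] [Group H]

lemma cupL_push (φ : G → H) (x y : H → H → ℤ) (z : Chain ℤ G 4) :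
    cupL x y (push ℤ φ 4 z) = cupL (fun g h => x (φ g) (φ h)) (fun g h => y (φ g) (φ h)) z := by
  unfold cupL push
  rw [Finsupp.lmapDomain_apply, Finsupp.linearCombination_mapDomain]
  rfl

/-- The flat bundle over the free product. -/
theorem exists_coprod (E : FlatS3 G) (F : FlatS3 H) (y : Chain ℤ G 4) (z : Chain ℤ H 4) :
    ∃ K : FlatS3 (Coprod G H),
      K.euler (push ℤ (Coprod.inl : G →* Coprod G H) 4 y + push ℤ (Coprod.inr : H →* Coprod G H) 4 z)
        = E.euler y + F.euler z ∧
      K.pontryagin (push ℤ (Coprod.inl : G →* Coprod G H) 4 y +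
        push ℤ (Coprod.inr : H →* Coprod G H) 4 z) = E.pontryagin y + F.pontryagin z := by
  classical
  let hol : Coprod G H →* (S3 ≃ₜ S3) := Coprod.lift E.hol F.hol
  have hex : ∀ x : Coprod G H, ∃ t : Triple, IsLifted t ∧ t.1 = hol x := by
    intro x
    induction x using Coprod.induction_on with
    | inl g => exact ⟨E.lift g, E.lifted g, by
        rw [E.lift_fst]
        exact (Coprod.lift_apply_inl E.hol F.hol g).symm⟩
    | inr g => exact ⟨F.lift g, F.lifted g, by
        rw [F.lift_fst]
        exact (Coprod.lift_apply_inr E.hol F.hol g).symm⟩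
    | mul x y hx hy =>
      obtain ⟨t, t1, t2⟩ := hx
      obtain ⟨u, u1, u2⟩ := hy
      refine ⟨t * u, lifted_mul t1 u1, ?_⟩
      rw [map_mul, ← t2, ← u2]
      rfl
  choose t ht1 ht2 using hex
  let l : Coprod G H → Triple := fun x =>
    if h : ∃ g : G, Coprod.inl g = x then E.lift h.choose
      else if h : ∃ g : H, Coprod.inr g = x then F.lift h.choose else t x
  have linl : ∀ g : G, l (Coprod.inl g) = E.lift g := by
    intro g
    have h : ∃ g' : G, (Coprod.inl g' : Coprod G H) = Coprod.inl g := ⟨g, rfl⟩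
    have h1 : l (Coprod.inl g) = E.lift h.choose := dif_pos h
    rw [h1, Coprod.inl_injective h.choose_spec]
  have linr : ∀ g : H, l (Coprod.inr g) = F.lift g := by
    intro g
    by_cases h0 : ∃ g' : G, (Coprod.inl g' : Coprod G H) = Coprod.inr g
    · obtain ⟨g', hg'⟩ := h0
      have h1 := congrArg Coprod.fst hg'
      rw [Coprod.fst_apply_inl, Coprod.fst_apply_inr] at h1
      have h2 := congrArg Coprod.snd hg'
      rw [Coprod.snd_apply_inl, Coprod.snd_apply_inr] at h2
      rw [← hg', linl, h1, ← h2, E.lift_one, F.lift_one]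
    · have h : ∃ g' : H, (Coprod.inr g' : Coprod G H) = Coprod.inr g := ⟨g, rfl⟩
      have h1 : l (Coprod.inr g) = F.lift h.choose := by
        change (if h : _ then _ else _) = _
        rw [dif_neg h0, dif_pos h]
      rw [h1, Coprod.inr_injective h.choose_spec]
  have hl : ∀ x, IsLifted (l x) ∧ (l x).1 = hol x := by
    intro x
    by_cases h0 : ∃ g : G, (Coprod.inl g : Coprod G H) = x
    · obtain ⟨g, rfl⟩ := h0
      rw [linl]
      exact ⟨E.lifted g, by
        rw [E.lift_fst]
        exact (Coprod.lift_apply_inl E.hol F.hol g).symm⟩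
    · by_cases h1 : ∃ g : H, (Coprod.inr g : Coprod G H) = x
      · obtain ⟨g, rfl⟩ := h1
        rw [linr]
        exact ⟨F.lifted g, by
          rw [F.lift_fst]
          exact (Coprod.lift_apply_inr E.hol F.hol g).symm⟩
      · have h2 : l x = t x := by
          change (if h : _ then _ else _) = _
          rw [dif_neg h0, dif_neg h1]
        rw [h2]
        exact ⟨ht1 x, ht2 x⟩
  have hmul : ∀ x y, ∃ r s : ℤ, l x * l y = l (x * y) * shift r s := by
    intro x y
    apply lift_unique (lifted_mul (hl x).1 (hl y).1) (hl _).1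
    change (l x).1 * (l y).1 = (l (x * y)).1
    rw [(hl _).2, (hl _).2, (hl _).2, map_mul]
  choose xR xA hx using hmul
  have hxl : ∀ g h : G, xR (Coprod.inl g) (Coprod.inl h) = E.xR g h ∧
      xA (Coprod.inl g) (Coprod.inl h) = E.xA g h := by
    intro g h
    have h1 := hx (Coprod.inl g) (Coprod.inl h)
    rw [← map_mul, linl, linl, linl, E.mul] at h1
    have h2 := shift_inj (mul_left_cancel h1)
    exact ⟨h2.1.symm, h2.2.symm⟩
  have hxr : ∀ g h : H, xR (Coprod.inr g) (Coprod.inr h) = F.xR g h ∧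
      xA (Coprod.inr g) (Coprod.inr h) = F.xA g h := by
    intro g h
    have h1 := hx (Coprod.inr g) (Coprod.inr h)
    rw [← map_mul, linr, linr, linr, F.mul] at h1
    have h2 := shift_inj (mul_left_cancel h1)
    exact ⟨h2.1.symm, h2.2.symm⟩
  have el1 : (fun g h : G => xR (Coprod.inl g) (Coprod.inl h)) = E.xR := by
    funext g h; exact (hxl g h).1
  have el2 : (fun g h : G => xA (Coprod.inl g) (Coprod.inl h)) = E.xA := by
    funext g h; exact (hxl g h).2
  have er1 : (fun g h : H => xR (Coprod.inr g) (Coprod.inr h)) = F.xR := by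
    funext g h; exact (hxr g h).1
  have er2 : (fun g h : H => xA (Coprod.inr g) (Coprod.inr h)) = F.xA := by
    funext g h; exact (hxr g h).2
  refine ⟨⟨hol, l, fun x => (hl x).2, fun x => (hl x).1, ?_, xR, xA, hx⟩, ?_, ?_⟩
  · have h1 := linl 1
    rw [map_one, E.lift_one] at h1
    exact h1
  · unfold FlatS3.euler
    simp only [cup_eq, map_add, cupL_push]
    rw [el1, el2, er1, er2]
  · unfold FlatS3.pontryagin
    simp only [cup_eq, map_add, cupL_push]
    rw [el1, el2, er1, er2]
    ring

open Pointwise in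
/-- The sum of two sets of pairs is realised over the free product. -/
theorem Attained.add {A B : Set (ℤ × ℤ)} (hA : Attained A) (hB : Attained B) : Attained (A + B) := by
  obtain ⟨G, _, y, hy, hA⟩ := hA
  obtain ⟨H, _, z, hz, hB⟩ := hB
  refine ⟨Coprod G H, inferInstance, push ℤ (Coprod.inl : G →* Coprod G H) 4 y +
    push ℤ (Coprod.inr : H →* Coprod G H) 4 z, ?_, ?_⟩
  · rw [map_add, bdry_push_hom, bdry_push_hom, hy, hz]
    simp
  · intro p hp
    obtain ⟨a, ha, b, hb, rfl⟩ := Set.mem_add.1 hp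
    obtain ⟨E, e1, e2⟩ := hA a ha
    obtain ⟨F, f1, f2⟩ := hB b hb
    obtain ⟨K, k1, k2⟩ := exists_coprod E F y z
    refine ⟨K, ?_, ?_⟩
    · rw [k1, e1, f1]
      rfl
    · rw [k2, e2, f2]
      rfl

end

end Pool.Agent.H64.NB
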