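import Mathlib

/-!
# The nilpotent group

`Nil = ℤ⁴ ⋊ ℤ²`. The two generators of `ℤ²` act on `ℤ⁴` by
`(x, y, z, w) ↦ (x - z, y, z, w)` and `(x, y, z, w) ↦ (x - z - w, y - z - 2 w, z, w)`. The
commutators lie in the subgroup of the `(x, y, 0, 0, 0, 0)`, which is central.
-/

namespace Pool.Agent.H64.NB

/-- The elements of the group are the sextuples of integers. -/
@[ext] structure Nil where
  x : ℤ
  y : ℤ
  z : ℤ
  w : ℤ
  i : ℤ
  j : ℤ
deriving DecidableEq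

namespace Nil

/-- The product: the element `(0, 0, 0, 0, i, j)` acts on `(x, y, z, w)` by
`(x - i z - j (z + w), y - j (z + 2 w), z, w)`. -/
instance : Mul Nil where
  mul g k := ⟨g.x + k.x - g.i * k.z - g.j * (k.z + k.w), g.y + k.y - g.j * (k.z + 2 * k.w),
    g.z + k.z, g.w + k.w, g.i + k.i, g.j + k.j⟩

instance : One Nil where
  one := ⟨0, 0, 0, 0, 0, 0⟩

instance : Inv Nil where
  inv g := ⟨-g.x - g.i * g.z - g.j * (g.z + g.w), -g.y - g.j * (g.z + 2 * g.w),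
    -g.z, -g.w, -g.i, -g.j⟩

@[simp] lemma mul_x (g k : Nil) :
    (g * k).x = g.x + k.x - g.i * k.z - g.j * (k.z + k.w) := rfl
@[simp] lemma mul_y (g k : Nil) : (g * k).y = g.y + k.y - g.j * (k.z + 2 * k.w) := rfl
@[simp] lemma mul_z (g k : Nil) : (g * k).z = g.z + k.z := rfl
@[simp] lemma mul_w (g k : Nil) : (g * k).w = g.w + k.w := rfl
@[simp] lemma mul_i (g k : Nil) : (g * k).i = g.i + k.i := rfl
@[simp] lemma mul_j (g k : Nil) : (g * k).j = g.j + k.j := rfl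
@[simp] lemma one_x : (1 : Nil).x = 0 := rfl
@[simp] lemma one_y : (1 : Nil).y = 0 := rfl
@[simp] lemma one_z : (1 : Nil).z = 0 := rfl
@[simp] lemma one_w : (1 : Nil).w = 0 := rfl
@[simp] lemma one_i : (1 : Nil).i = 0 := rfl
@[simp] lemma one_j : (1 : Nil).j = 0 := rfl
@[simp] lemma inv_x (g : Nil) : (g⁻¹).x = -g.x - g.i * g.z - g.j * (g.z + g.w) := rfl
@[simp] lemma inv_y (g : Nil) : (g⁻¹).y = -g.y - g.j * (g.z + 2 * g.w) := rfl
@[simp] lemma inv_z (g : Nil) : (g⁻¹).z = -g.z := rfl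
@[simp] lemma inv_w (g : Nil) : (g⁻¹).w = -g.w := rfl
@[simp] lemma inv_i (g : Nil) : (g⁻¹).i = -g.i := rfl
@[simp] lemma inv_j (g : Nil) : (g⁻¹).j = -g.j := rfl

instance : Group Nil :=
  Group.ofLeftAxioms
    (fun a b c => by ext <;> simp <;> ring)
    (fun a => by ext <;> simp)
    (fun a => by ext <;> simp <;> ring)

open scoped commutatorElement in
/-- The group is nilpotent of class two. -/
instance : Group.IsNilpotent Nil := by
  refine ⟨⟨2, ?_⟩⟩
  rw [Subgroup.eq_top_iff']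
  intro g
  rw [Subgroup.mem_upperCentralSeries_succ_iff]
  intro k
  rw [Subgroup.mem_upperCentralSeries_succ_iff]
  intro l
  rw [Subgroup.upperCentralSeries_zero, Subgroup.mem_bot]
  simp only [commutatorElement_def]
  ext <;> simp <;> ring

/-- The elements `(n, 0, 0, 0, 0, 0)`. -/
def gx : Multiplicative ℤ →* Nil where
  toFun n := ⟨n.toAdd, 0, 0, 0, 0, 0⟩
  map_one' := by ext <;> simp
  map_mul' m n := by ext <;> simp

/-- The elements `(0, n, 0, 0, 0, 0)`. -/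
def gy : Multiplicative ℤ →* Nil where
  toFun n := ⟨0, n.toAdd, 0, 0, 0, 0⟩
  map_one' := by ext <;> simp
  map_mul' m n := by ext <;> simp

/-- The elements `(0, 0, n, 0, 0, 0)`. -/
def gz : Multiplicative ℤ →* Nil where
  toFun n := ⟨0, 0, n.toAdd, 0, 0, 0⟩
  map_one' := by ext <;> simp
  map_mul' m n := by ext <;> simp

/-- The elements `(0, 0, 0, n, 0, 0)`. -/
def gw : Multiplicative ℤ →* Nil where
  toFun n := ⟨0, 0, 0, n.toAdd, 0, 0⟩
  map_one' := by ext <;> simp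
  map_mul' m n := by ext <;> simp

/-- The elements `(0, 0, 0, 0, n, 0)`. -/
def gi : Multiplicative ℤ →* Nil where
  toFun n := ⟨0, 0, 0, 0, n.toAdd, 0⟩
  map_one' := by ext <;> simp
  map_mul' m n := by ext <;> simp

/-- The elements `(0, 0, 0, 0, 0, n)`. -/
def gj : Multiplicative ℤ →* Nil where
  toFun n := ⟨0, 0, 0, 0, 0, n.toAdd⟩
  map_one' := by ext <;> simp
  map_mul' m n := by ext <;> simp

lemma mem_of_gen (S : Subgroup Nil) (f : Multiplicative ℤ →* Nil)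
    (h : f (Multiplicative.ofAdd 1) ∈ S) (n : ℤ) : f (Multiplicative.ofAdd n) ∈ S := by
  have h1 : Multiplicative.ofAdd n = (Multiplicative.ofAdd (1 : ℤ)) ^ n := by
    rw [← ofAdd_zsmul, smul_eq_mul, mul_one]
  rw [h1, map_zpow]
  exact S.zpow_mem h n

/-- The group is generated by six elements. -/
instance : Group.FG Nil := by
  let o : Multiplicative ℤ := Multiplicative.ofAdd 1
  refine Group.fg_iff.2 ⟨{gx o, gy o, gz o, gw o, gi o, gj o}, ?_, Set.toFinite _⟩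
  rw [Subgroup.eq_top_iff']
  intro g
  set S := Subgroup.closure ({gx o, gy o, gz o, gw o, gi o, gj o} : Set Nil) with hS
  have hsub : ∀ h ∈ ({gx o, gy o, gz o, gw o, gi o, gj o} : Set Nil), h ∈ S :=
    fun h hh => Subgroup.subset_closure hh
  have h1 := mem_of_gen S gx (hsub _ (by simp [o])) g.x
  have h2 := mem_of_gen S gy (hsub _ (by simp [o])) g.y
  have h3 := mem_of_gen S gz (hsub _ (by simp [o])) g.z
  have h4 := mem_of_gen S gw (hsub _ (by simp [o])) g.w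
  have h5 := mem_of_gen S gi (hsub _ (by simp [o])) g.i
  have h6 := mem_of_gen S gj (hsub _ (by simp [o])) g.j
  have h7 : g = gx (Multiplicative.ofAdd g.x) * gy (Multiplicative.ofAdd g.y) *
      gz (Multiplicative.ofAdd g.z) * gw (Multiplicative.ofAdd g.w) *
      gi (Multiplicative.ofAdd g.i) * gj (Multiplicative.ofAdd g.j) := by
    ext <;> simp [gx, gy, gz, gw, gi, gj]
  rw [h7]
  exact S.mul_mem (S.mul_mem (S.mul_mem (S.mul_mem (S.mul_mem h1 h2) h3) h4) h5) h6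

/-- The coordinates as a function on `Fin 6`. -/
def vec (g : Nil) : Fin 6 → ℤ := ![g.x, g.y, g.z, g.w, g.i, g.j]

lemma vec_injective : Function.Injective vec := by
  intro g k h
  have h0 := congrFun h 0
  have h1 := congrFun h 1
  have h2 := congrFun h 2
  have h3 := congrFun h 3
  have h4 := congrFun h 4
  have h5 := congrFun h 5
  exact Nil.ext h0 h1 h2 h3 h4 h5

open Pointwise in
/-- The elements of `S ^ m` have coordinates of size `O(m²)`. -/
lemma mem_pow (S : Finset Nil) (B : ℕ) (hB : ∀ g ∈ S, |g.x| ≤ B ∧ |g.y| ≤ B ∧ |g.z| ≤ B ∧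
    |g.w| ≤ B ∧ |g.i| ≤ B ∧ |g.j| ≤ B) (m : ℕ) : ∀ g ∈ S ^ m,
    |g.x| ≤ (3 * B ^ 2 + B) * m ^ 2 ∧ |g.y| ≤ (3 * B ^ 2 + B) * m ^ 2 ∧ |g.z| ≤ B * m ∧
    |g.w| ≤ B * m ∧ |g.i| ≤ B * m ∧ |g.j| ≤ B * m := by
  induction m with
  | zero =>
    intro g hg
    rw [pow_zero, Finset.mem_one] at hg
    subst hg
    simp
  | succ m ih =>
    intro g hg
    rw [pow_succ, Finset.mem_mul] at hg
    obtain ⟨g, hg, k, hk, rfl⟩ := hg
    obtain ⟨a1, a2, a3, a4, a5, a6⟩ := ih g hg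
    obtain ⟨b1, b2, b3, b4, b5, b6⟩ := hB k hk
    simp only [mul_x, mul_y, mul_z, mul_w, mul_i, mul_j]
    have hB0 : (0 : ℤ) ≤ B := Int.natCast_nonneg B
    have hm0 : (0 : ℤ) ≤ m := Int.natCast_nonneg m
    have c1 : |g.i * k.z| ≤ B * m * B := by
      rw [abs_mul]
      exact mul_le_mul a5 b3 (abs_nonneg _) (by positivity)
    have c2 : |g.j * (k.z + k.w)| ≤ B * m * (2 * B) := by
      rw [abs_mul]
      refine mul_le_mul a6 ((abs_add_le _ _).trans (by linarith)) (abs_nonneg _) (by positivity)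
    have c3 : |g.j * (k.z + 2 * k.w)| ≤ B * m * (3 * B) := by
      rw [abs_mul]
      refine mul_le_mul a6 ((abs_add_le _ _).trans ?_) (abs_nonneg _) (by positivity)
      rw [abs_mul, abs_two]
      linarith
    push_cast
    refine ⟨?_, ?_, ?_, ?_, ?_, ?_⟩
    · rw [abs_le] at *
      constructor <;> nlinarith
    · rw [abs_le] at *
      constructor <;> nlinarith
    · exact (abs_add_le _ _).trans (by linarith)
    · exact (abs_add_le _ _).trans (by linarith)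
    · exact (abs_add_le _ _).trans (by linarith)
    · exact (abs_add_le _ _).trans (by linarith)

open Pointwise in
/-- Polynomial growth. -/
lemma growth (S : Finset Nil) : ∃ C d : ℕ, ∀ m : ℕ, (S ^ m).card ≤ C * (m + 1) ^ d := by
  obtain ⟨B, hB⟩ : ∃ B : ℕ, ∀ g ∈ S, |g.x| ≤ B ∧ |g.y| ≤ B ∧ |g.z| ≤ B ∧
      |g.w| ≤ B ∧ |g.i| ≤ B ∧ |g.j| ≤ B := by
    refine ⟨∑ g ∈ S, (g.x.natAbs + g.y.natAbs + g.z.natAbs + g.w.natAbs + g.i.natAbs +
      g.j.natAbs), fun g hg => ?_⟩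
    have h1 := Finset.single_le_sum (f := fun g : Nil => g.x.natAbs + g.y.natAbs + g.z.natAbs +
      g.w.natAbs + g.i.natAbs + g.j.natAbs) (fun _ _ => Nat.zero_le _) hg
    simp only [Int.abs_eq_natAbs]
    omega
  refine ⟨(2 * (3 * B ^ 2 + B) + 1) ^ 6, 12, fun m => ?_⟩
  have h1 : (S ^ m).card ≤ (Finset.Icc (fun _ : Fin 6 => -(((3 * B ^ 2 + B) * m ^ 2 : ℕ) : ℤ))
      (fun _ : Fin 6 => (((3 * B ^ 2 + B) * m ^ 2 : ℕ) : ℤ))).card := by
    refine Finset.card_le_card_of_injOn vec ?_ vec_injective.injOn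
    intro g hg
    obtain ⟨a1, a2, a3, a4, a5, a6⟩ := mem_pow S B hB m g hg
    have h2 : (B : ℤ) * m ≤ (3 * B ^ 2 + B) * m ^ 2 := by
      have hB0 : (0 : ℤ) ≤ B := Int.natCast_nonneg B
      have h3 : (m : ℤ) ≤ m ^ 2 := by
        exact_mod_cast Nat.le_self_pow (by norm_num) m
      have h4 : (0 : ℤ) ≤ 3 * B ^ 2 * m ^ 2 := by positivity
      have h5 : (B : ℤ) * m ≤ B * m ^ 2 := mul_le_mul_of_nonneg_left h3 hB0
      linarith
    have h6 : ∀ i, |vec g i| ≤ (((3 * B ^ 2 + B) * m ^ 2 : ℕ) : ℤ) := by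
      push_cast
      intro i
      fin_cases i
      · exact a1
      · exact a2
      · exact a3.trans h2
      · exact a4.trans h2
      · exact a5.trans h2
      · exact a6.trans h2
    rw [Finset.coe_Icc, Set.mem_Icc]
    exact ⟨fun i => (abs_le.1 (h6 i)).1, fun i => (abs_le.1 (h6 i)).2⟩
  refine h1.trans ?_
  rw [Pi.card_Icc]
  simp only [Int.card_Icc, Finset.prod_const, Finset.card_univ, Fintype.card_fin]
  have h2 : ((((3 * B ^ 2 + B) * m ^ 2 : ℕ) : ℤ) + 1 - -(((3 * B ^ 2 + B) * m ^ 2 : ℕ) : ℤ)).toNat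
      = 2 * ((3 * B ^ 2 + B) * m ^ 2) + 1 := by
    omega
  rw [h2]
  have h3 : 2 * ((3 * B ^ 2 + B) * m ^ 2) + 1 ≤ (2 * (3 * B ^ 2 + B) + 1) * (m + 1) ^ 2 := by
    nlinarith [Nat.zero_le ((3 * B ^ 2 + B) * m), Nat.zero_le m]
  calc (2 * ((3 * B ^ 2 + B) * m ^ 2) + 1) ^ 6
      ≤ ((2 * (3 * B ^ 2 + B) + 1) * (m + 1) ^ 2) ^ 6 := Nat.pow_le_pow_left h3 6
    _ = (2 * (3 * B ^ 2 + B) + 1) ^ 6 * (m + 1) ^ 12 := by
        rw [mul_pow, ← pow_mul]

end Nil

end Pool.Agent.H64.NB
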