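import Pool.Agent.H64.NB.Defs
import Pool.Agent.H64.NB.Disc
import Pool.Agent.H64.NB.Cyc

/-!
# The holonomy

Let `n = (x, y, z, w) ∈ ℤ⁴`, `e = (i, j) ∈ ℤ²`. The element `n e` of the group acts on
`S^3 \ R = ℂ × ℝ/ℤ` by `(c, τ) ↦ (c + e, τ + R_n(c + e))`, where for `c = (s, t)`
`R_n(c) = z (- q s (s - 1) - (q + 1) t (t - 1) / 2 - q s t) + w (β s - (q + 2) t (t - 1) / 2)
  - x (2 q s + q t) - y (- q s + t)`.
-/

namespace Pool.Agent.H64.NB

open Pool.Agent.H79.FB Pool.Agent.H8.SV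

/-- `t (t - 1) / 2` -/
def tri (t : ℤ) : ℤ := t * (t - 1) / 2

lemma two_mul_tri (t : ℤ) : 2 * tri t = t * (t - 1) :=
  Int.mul_ediv_cancel' (Int.even_mul_pred_self t).two_dvd

lemma tri_cast (t : ℤ) : (tri t : ℝ) = (t : ℝ) * (t - 1) / 2 := by
  have h := two_mul_tri t
  have h2 : (2 : ℝ) * (tri t : ℝ) = (t : ℝ) * (t - 1) := by exact_mod_cast h
  linarith

/-- The function `R_n` on the plane, as a function of `n = (x, y, z, w)`. -/
noncomputable def rfun (q β x y z w : ℝ) (s t : ℝ) : ℝ :=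
  z * (-q * s * (s - 1) - (q + 1) * (t * (t - 1) / 2) - q * s * t)
    + w * (β * s - (q + 2) * (t * (t - 1) / 2)) - x * (2 * q * s + q * t) - y * (-q * s + t)

/-- The rotation function of an element of the group. -/
noncomputable def rot' (q β : ℤ) (g : Nil) : C(ℂ, ℝ) :=
  ⟨fun c => rfun q β g.x g.y g.z g.w (c.re + g.i) (c.im + g.j), by
    unfold rfun
    fun_prop⟩

/-- The translation of an element of the group. -/
noncomputable def eg (g : Nil) : ℂ := ⟨g.i, g.j⟩

/-- The integral value of `R_n`. -/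
def rint (q β x y z w s t : ℤ) : ℤ :=
  z * (-q * s * (s - 1) - (q + 1) * tri t - q * s * t)
    + w * (β * s - (q + 2) * tri t) - x * (2 * q * s + q * t) - y * (-q * s + t)

/-- The cocycle. -/
def xc (q β : ℤ) (g k : Nil) : ℤ :=
  - rint q β (k.x - g.i * k.z - g.j * (k.z + k.w)) (k.y - g.j * (k.z + 2 * k.w)) k.z k.w g.i g.j

lemma key (q β : ℤ) (g k : Nil) :
    rot' q β k + (rot' q β g).comp ⟨fun w => w + eg k, by fun_prop⟩ =
      ContinuousMap.const ℂ ((xc q β g k : ℤ) : ℝ) + rot' q β (g * k) := by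
  ext c
  simp only [ContinuousMap.add_apply, ContinuousMap.comp_apply, ContinuousMap.const_apply]
  change rfun q β k.x k.y k.z k.w (c.re + k.i) (c.im + k.j) +
    rfun q β g.x g.y g.z g.w ((c + eg k).re + g.i) ((c + eg k).im + g.j) =
    ((xc q β g k : ℤ) : ℝ) + rfun q β (g * k).x (g * k).y (g * k).z (g * k).w
      (c.re + (g * k).i) (c.im + (g * k).j)
  have h1 : (c + eg k).re = c.re + k.i := rfl
  have h2 : (c + eg k).im = c.im + k.j := rfl
  rw [h1, h2]
  unfold xc rint rfun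
  simp only [Nil.mul_x, Nil.mul_y, Nil.mul_z, Nil.mul_w, Nil.mul_i, Nil.mul_j]
  push_cast
  rw [tri_cast]
  ring

/-- The lift of the holonomy. -/
noncomputable def lf (q β : ℤ) (g : Nil) : Triple := toT (tw (eg g) (rot' q β g))

lemma eg_mul (g k : Nil) : eg (g * k) = eg g + eg k := by
  apply Complex.ext
  · change (((g * k).i : ℤ) : ℝ) = (g.i : ℝ) + (k.i : ℝ)
    rw [Nil.mul_i]
    push_cast
    ring
  · change (((g * k).j : ℤ) : ℝ) = (g.j : ℝ) + (k.j : ℝ)
    rw [Nil.mul_j]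
    push_cast
    ring

lemma lf_mul (q β : ℤ) (g k : Nil) :
    lf q β g * lf q β k = lf q β (g * k) * shift 0 (xc q β g k) := by
  rw [← toT_tw_const]
  unfold lf
  rw [← map_mul, ← map_mul, tw_mul, tw_mul, key, eg_mul, add_zero]
  congr 2
  ext c
  simp

/-- The flat bundle. -/
noncomputable def bun (q β : ℤ) : FlatS3 Nil where
  hol :=
    { toFun := fun g => (lf q β g).1
      map_one' := by
        have h := lf_mul q β 1 1
        have h1 := congrArg Prod.fst h
        rw [mul_one] at h1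
        change (lf q β 1).1 * (lf q β 1).1 = (lf q β 1).1 * 1 at h1
        exact mul_left_cancel h1
      map_mul' := fun g k => by
        have h1 := congrArg Prod.fst (lf_mul q β g k)
        change (lf q β g).1 * (lf q β k).1 = (lf q β (g * k)).1 * 1 at h1
        rw [mul_one] at h1
        exact h1.symm }
  lift := lf q β
  lift_fst := fun _ => rfl
  lifted := fun g => isLifted_tw _ _
  lift_one := by
    unfold lf
    have h1 : eg 1 = 0 := by
      apply Complex.ext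
      · change (((1 : Nil).i : ℤ) : ℝ) = 0
        simp
      · change (((1 : Nil).j : ℤ) : ℝ) = 0
        simp
    have h2 : rot' q β 1 = 0 := by
      ext c
      change rfun q β ((1 : Nil).x : ℤ) ((1 : Nil).y : ℤ) ((1 : Nil).z : ℤ) ((1 : Nil).w : ℤ) _ _
        = 0
      unfold rfun
      simp
    rw [h1, h2, tw_zero, map_one]
  xR := fun _ _ => 0
  xA := xc q β
  mul := lf_mul q β

/-- The coefficients of the cocycle as a polynomial in `q` and `β`. -/
def co (g k : Nil) : ℤ × ℤ × ℤ :=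
  let X := k.x - g.i * k.z - g.j * (k.z + k.w)
  let Y := k.y - g.j * (k.z + 2 * k.w)
  (k.z * tri g.j + 2 * k.w * tri g.j + Y * g.j,
    k.z * (g.i * (g.i - 1) + tri g.j + g.i * g.j) + k.w * tri g.j + X * (2 * g.i + g.j) - Y * g.i,
    -(k.w * g.i))

lemma xc_eq (q β : ℤ) (g k : Nil) :
    xc q β g k = (co g k).1 + q * (co g k).2.1 + β * (co g k).2.2 := by
  unfold xc rint co
  ring

/-- The values of the nine products of coefficients on the cycle. -/
def sums : List (ℤ × Nil × Nil × Nil × Nil) → (ℤ × ℤ × ℤ) × (ℤ × ℤ × ℤ) × (ℤ × ℤ × ℤ)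
  | [] => 0
  | p :: l =>
    let u := co p.2.1 p.2.2.1
    let v := co p.2.2.2.1 p.2.2.2.2
    ((p.1 * (u.1 * v.1), p.1 * (u.1 * v.2.1), p.1 * (u.1 * v.2.2)),
      (p.1 * (u.2.1 * v.1), p.1 * (u.2.1 * v.2.1), p.1 * (u.2.1 * v.2.2)),
      (p.1 * (u.2.2 * v.1), p.1 * (u.2.2 * v.2.1), p.1 * (u.2.2 * v.2.2))) + sums l

lemma sum_eq (q β : ℤ) (l : List (ℤ × Nil × Nil × Nil × Nil)) :
    (l.map fun p => p.1 * (xc q β (tup4 p.2 0) (tup4 p.2 1) *
      xc q β (tup4 p.2 2) (tup4 p.2 3))).sum =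
      (sums l).1.1 + q * (sums l).1.2.1 + β * (sums l).1.2.2 +
      q * ((sums l).2.1.1 + q * (sums l).2.1.2.1 + β * (sums l).2.1.2.2) +
      β * ((sums l).2.2.1 + q * (sums l).2.2.2.1 + β * (sums l).2.2.2.2) := by
  induction l with
  | nil => simp [sums]
  | cons p l ih =>
    obtain ⟨c, g0, g1, g2, g3⟩ := p
    rw [List.map_cons, List.sum_cons, ih]
    have h0 : tup4 (g0, g1, g2, g3) 0 = g0 := rfl
    have h1 : tup4 (g0, g1, g2, g3) 1 = g1 := rfl
    have h2 : tup4 (g0, g1, g2, g3) 2 = g2 := rfl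
    have h3 : tup4 (g0, g1, g2, g3) 3 = g3 := rfl
    rw [h0, h1, h2, h3, xc_eq, xc_eq]
    simp only [sums, Prod.fst_add, Prod.snd_add]
    ring

lemma sums_cyc : sums cyc = ((0, 0, 1), (0, 1, 0), (1, 0, 0)) := by
  decide +kernel

/-- The Euler number is `0`. -/
lemma bun_euler (q β : ℤ) : (bun q β).euler (ch4 cyc) = 0 := by
  unfold FlatS3.euler cup
  change (ch4 cyc).sum (fun g a => a * (0 * (bun q β).xA (g 2) (g 3))) = 0
  simp

/-- The Pontryagin number is `q² + 2 β`. -/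
lemma bun_pontryagin (q β : ℤ) : (bun q β).pontryagin (ch4 cyc) = q ^ 2 + 2 * β := by
  unfold FlatS3.pontryagin cup
  change (ch4 cyc).sum (fun g a => a * (0 * 0)) +
    (ch4 cyc).sum (fun g a => a * (xc q β (g 0) (g 1) * xc q β (g 2) (g 3))) = _
  have h := sum_ch4 (fun g => xc q β (g 0) (g 1) * xc q β (g 2) (g 3)) cyc
  rw [h, sum_eq, sums_cyc]
  simp
  ring

end Pool.Agent.H64.NB
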