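import Pool.Agent.H64.NB.Disc

/-!
# Four commuting homeomorphisms

The translations by `1` and by `i` of the plane `ℂ` and the rotations by `- v Re w` and by `- Im w`
turns at the point `w` give four commuting homeomorphisms of `S^3`.
-/

namespace Pool.Agent.H64.NB

open Pool.Agent.H79.FB

/-- The rotation by `f`. -/
noncomputable def rt (f : C(ℂ, ℝ)) : W := tw 0 f

lemma tw_comm_shift (u : ℂ) (f : C(ℂ, ℝ)) (r : ℝ) (h : ∀ w, f (w + u) = f w - r) :
    tw u 0 * tw 0 f * (tw u 0)⁻¹ * (tw 0 f)⁻¹ = tw 0 (ContinuousMap.const ℂ r) := by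
  rw [mul_inv_eq_iff_eq_mul, mul_inv_eq_iff_eq_mul, tw_mul, tw_mul, tw_mul]
  have h1 : u + 0 = 0 + 0 + u := by ring
  rw [h1]
  congr 1
  ext w
  simp only [ContinuousMap.add_apply, ContinuousMap.comp_apply, ContinuousMap.coe_mk,
    ContinuousMap.zero_apply, ContinuousMap.const_apply, add_zero, zero_add]
  rw [h]
  ring

lemma tw_comm (u v : ℂ) (f g : C(ℂ, ℝ)) (h : ∀ w, g w + f (w + v) = f w + g (w + u)) :
    tw u f * tw v g = tw v g * tw u f := by
  rw [tw_mul, tw_mul, add_comm u v]
  congr 1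
  ext w
  exact h w

/-- The function `- v Re w`. -/
noncomputable def fre (v : ℤ) : C(ℂ, ℝ) := ⟨fun w => -(v * w.re), by fun_prop⟩

/-- The function `- Im w`. -/
noncomputable def fim : C(ℂ, ℝ) := ⟨fun w => -w.im, by fun_prop⟩

lemma prodComm_one {G : Type} [Group G] (a b : G) :
    prodComm (fun _ : Fin 1 => a) (fun _ : Fin 1 => b) = a * b * a⁻¹ * b⁻¹ := by
  unfold prodComm
  simp

/-- The flat bundle over the torus `T^4 = T^2 × T^2` with the Pontryagin number `2 v`. -/
noncomputable def torBundle (v : ℤ) : FlatBundle 1 1 where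
  a := fun _ => toT (tw 1 0)
  b := fun _ => toT (tw 0 (fre v))
  c := fun _ => toT (tw Complex.I 0)
  d := fun _ => toT (tw 0 fim)
  lifted_a := fun _ => isLifted_tw _ _
  lifted_b := fun _ => isLifted_tw _ _
  lifted_c := fun _ => isLifted_tw _ _
  lifted_d := fun _ => isLifted_tw _ _
  comm_ac := fun _ _ => by
    rw [← map_mul, ← map_mul, tw_comm]
    intro w
    simp
  comm_ad := fun _ _ => by
    rw [← map_mul, ← map_mul, tw_comm]
    intro w
    simp [fim]
  comm_bc := fun _ _ => by
    rw [← map_mul, ← map_mul, tw_comm]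
    intro w
    simp [fre]
  comm_bd := fun _ _ => by
    rw [← map_mul, ← map_mul, tw_comm]
    intro w
    simp [add_comm]
  r₁ := 0
  s₁ := v
  r₂ := 0
  s₂ := 1
  relator₁ := by
    rw [prodComm_one, ← map_inv, ← map_inv, ← map_mul, ← map_mul, ← map_mul,
      tw_comm_shift 1 (fre v) v, toT_tw_const]
    intro w
    simp [fre]
    ring
  relator₂ := by
    rw [prodComm_one, ← map_inv, ← map_inv, ← map_mul, ← map_mul, ← map_mul,
      tw_comm_shift Complex.I fim ((1 : ℤ) : ℝ), toT_tw_const]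
    intro w
    simp [fim]
    ring

lemma torBundle_euler (v : ℤ) : (torBundle v).euler = 0 := by
  unfold FlatBundle.euler
  change (0 : ℤ) * 1 + 0 * v = 0
  ring

lemma torBundle_pontryagin (v : ℤ) : (torBundle v).pontryagin = 2 * v := by
  unfold FlatBundle.pontryagin
  change 2 * ((0 : ℤ) * 0 + v * 1) = 2 * v
  ring

end Pool.Agent.H64.NB
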