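import Pool.Agent.H64.NB.Free
import Pool.Agent.H64.NB.Hol
import Pool.Agent.H64.NB.Fol
import Pool.Agent.H64.NB.Tor

/-!
# The theorems
-/

namespace Pool.Agent.H64.NB

open Pool.Agent.H79.FB Pool.Agent.H8.SV

lemma exists_params (v : ℤ) : ∃ q β : ℤ, q ^ 2 + 2 * β = v := by
  rcases Int.even_or_odd' v with ⟨w, hw | hw⟩
  · exact ⟨0, w, by rw [hw]; ring⟩
  · exact ⟨1, w, by rw [hw]; ring⟩

/-- The flat bundles over the nilpotent group. -/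
theorem nil_bundles (v : ℤ) : ∃ E : FlatS3 Nil, E.euler (ch4 cyc) = 0 ∧
    E.pontryagin (ch4 cyc) = v ∧ (∀ g t, E.hol g (circ t) = circ t) ∧
    ∃ (u : Nil → ℂ) (f : Nil → C(ℂ, ℝ)), ∀ g w t, E.hol g (pt w t) = pt (w + u g) (t + f g w) := by
  obtain ⟨q, β, h⟩ := exists_params v
  refine ⟨bun q β, bun_euler q β, ?_, ?_, eg, rot' q β, ?_⟩
  · rw [bun_pontryagin, h]
  · intro g t
    exact toT_tw_circ _ _ t
  · intro g w t
    exact toT_tw_pt _ _ w t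

/-- The cycle has `l^1`-seminorm zero. -/
theorem nil_small (ε : ℝ) (hε : 0 < ε) :
    ∃ b : Chain ℝ Nil 5, norm1 (toReal (ch4 cyc) + bdry ℝ Nil 4 b) < ε := by
  classical
  have hz : bdry ℝ Nil 3 (toReal (ch4 cyc)) = 0 := by
    rw [← toReal_bdry, bdry_cyc, toReal_zero]
  refine small_of_folner (toReal (ch4 cyc)) hz (fun δ hδ => ?_) ε hε
  let S : Finset Nil := insert 1 ((toReal (ch4 cyc)).support.image fun h => h 0)
  obtain ⟨C, d, hS⟩ := Nil.growth S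
  obtain ⟨F, hF1, hF2⟩ := folner_of_growth S (Finset.mem_insert_self _ _) C d hS δ hδ
  refine ⟨F, hF1, fun h hh => hF2 (h 0) ?_⟩
  exact Finset.mem_insert_of_mem (Finset.mem_image_of_mem _ hh)

lemma real_nil : Attained {p | p.1 = 0} := by
  refine ⟨Nil, inferInstance, ch4 cyc, bdry_cyc, ?_⟩
  rintro ⟨u, v⟩ hp
  obtain ⟨E, e1, e2, -⟩ := nil_bundles v
  exact ⟨E, by rw [e1]; exact hp.symm, e2⟩

lemma real_even (l : ℕ)
    (h : ∀ n N : ℤ, ∃ E : Pool.Agent.H79.FB.FlatBundle 2 (2 + l),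
      E.r₁ = -2 ∧ E.s₁ = n ∧ E.r₂ = 0 ∧ E.s₂ = N) : Attained {p | Even p.1 ∧ p.2 = 0} := by
  refine ⟨SurfaceGroup 2 × SurfaceGroup (2 + l), inferInstance, zz 2 (2 + l), bdry_zz _ _, ?_⟩
  rintro ⟨u, v⟩ ⟨⟨w, hw⟩, hv⟩
  simp only at hw hv
  obtain ⟨E, e1, e2, e3, e4⟩ := h 0 (-w)
  obtain ⟨E', f1, f2⟩ := exists_flatS3 E
  refine ⟨E', ?_, ?_⟩
  · rw [f1]
    unfold FlatBundle.euler
    rw [e1, e2, e3, e4, hw]
    ring
  · rw [f2]
    unfold FlatBundle.pontryagin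
    rw [e1, e2, e3, e4, hv]
    ring

lemma real_milnor (l : ℕ) : Attained {p | (p.1 = 0 ∨ p.1 = 1) ∧ p.2 = 0} := by
  refine ⟨SurfaceGroup 2 × SurfaceGroup (2 + l), inferInstance, zz 2 (2 + l), bdry_zz _ _, ?_⟩
  rintro ⟨u, v⟩ ⟨hu, hv⟩
  simp only at hu hv
  rcases hu with hu | hu
  · obtain ⟨E', f1, f2⟩ := exists_flatS3 (trivialBundle 2 (2 + l))
    refine ⟨E', ?_, ?_⟩
    · rw [f1, hu]
      rfl
    · rw [f2, hv]
      rfl
  · obtain ⟨E', f1, f2⟩ := exists_flatS3 (milnorBundle l)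
    refine ⟨E', ?_, ?_⟩
    · rw [f1, hu]
      rfl
    · rw [f2, hv]
      rfl

open Pointwise in
/-- **One base for all pairs.** -/
theorem real_univ : Attained Set.univ := by
  obtain ⟨l, h⟩ := exists_bundle_path
  have h1 := ((real_even l (fun n N => by
    obtain ⟨E, h1, h2, h3, h4, _⟩ := h n N
    exact ⟨E, h1, h2, h3, h4⟩)).add (real_milnor l)).add real_nil
  have h2 : ({p : ℤ × ℤ | Even p.1 ∧ p.2 = 0} + {p : ℤ × ℤ | (p.1 = 0 ∨ p.1 = 1) ∧ p.2 = 0} +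
      {p : ℤ × ℤ | p.1 = 0} : Set (ℤ × ℤ)) = Set.univ := by
    rw [Set.eq_univ_iff_forall]
    rintro ⟨u, v⟩
    rcases Int.even_or_odd' u with ⟨w, hw | hw⟩
    · refine Set.mem_add.2 ⟨(2 * w, 0), Set.mem_add.2 ⟨(2 * w, 0), ⟨⟨w, by ring⟩, rfl⟩, (0, 0),
        ⟨Or.inl rfl, rfl⟩, by simp⟩, (0, v), rfl, ?_⟩
      rw [hw]
      simp
    · refine Set.mem_add.2 ⟨(2 * w + 1, 0), Set.mem_add.2 ⟨(2 * w, 0), ⟨⟨w, by ring⟩, rfl⟩, (1, 0),
        ⟨Or.inr rfl, rfl⟩, by simp⟩, (0, v), rfl, ?_⟩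
      rw [hw]
      simp
  rw [h2] at h1
  exact h1

end Pool.Agent.H64.NB
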