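import Pool.Agent.H64.NB.Surf

/-!
# The flat bundles over a product of two surfaces
-/

namespace Pool.Agent.H64.NB

open Pool.Agent.H79.FB Pool.Agent.H8.SV

/-- The generator `a_i` of the surface group. -/
def sa {g : ℕ} (i : Fin g) : SurfaceGroup g := PresentedGroup.of (i, false)

/-- The generator `b_i` of the surface group. -/
def sb {g : ℕ} (i : Fin g) : SurfaceGroup g := PresentedGroup.of (i, true)

lemma prodComm_gen (g : ℕ) : prodComm (fun i : Fin g => sa i) (fun i => sb i) = 1 := by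
  have h := PresentedGroup.one_of_mem (rels := ({prodComm (fun i => FreeGroup.of (i, false))
    (fun i => FreeGroup.of (i, true))} : Set (FreeGroup (Fin g × Bool)))) (Set.mem_singleton _)
  rw [← prodComm_map] at h
  exact h

/-- The fundamental cycle of the product of two surfaces. -/
noncomputable def zz (g k : ℕ) : Chain ℤ (SurfaceGroup g × SurfaceGroup k) 4 :=
  crs (fz (fun i : Fin g => sa i) (fun i => sb i)) (fz (fun i : Fin k => sa i) (fun i => sb i))

lemma bdry_zz (g k : ℕ) : bdry ℤ (SurfaceGroup g × SurfaceGroup k) 3 (zz g k) = 0 :=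
  bdry_crs_zero (bdry_fz _ _ (prodComm_gen g)) (bdry_fz _ _ (prodComm_gen k))

/-- The group of the lifted triples. -/
def LG : Subgroup Triple where
  carrier := {x | IsLifted x}
  mul_mem' := lifted_mul
  one_mem' := isLifted_one
  inv_mem' := lifted_inv

lemma mem_LG (x : Triple) : x ∈ LG ↔ IsLifted x := Iff.rfl

/-- The lifts over a surface group. -/
lemma exists_lifts {g : ℕ} (a b : Fin g → Triple) (S : Subgroup Triple) (hS : S ≤ LG)
    (ha : ∀ i, a i ∈ S) (hb : ∀ i, b i ∈ S) {r s : ℤ} (hab : prodComm a b = shift r s) :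
    ∃ (l : SurfaceGroup g → Triple) (xR xA : SurfaceGroup g → SurfaceGroup g → ℤ),
      Lifts (SurfaceGroup g) l xR xA ∧ (∀ x, l x ∈ S) ∧
      (∀ x, (l x).1 = ofPair (fun i => (a i).1) (fun i => (b i).1) (shift_fst hab) x) ∧
      ev2 xR (fz (fun i : Fin g => sa i) (fun i => sb i)) = r ∧
      ev2 xA (fz (fun i : Fin g => sa i) (fun i => sb i)) = s := by
  classical
  set hol := ofPair (fun i => (a i).1) (fun i => (b i).1) (shift_fst hab) with hhol
  have hex : ∀ x : SurfaceGroup g, ∃ t ∈ S, t.1 = hol x := by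
    intro x
    obtain ⟨z, rfl⟩ := PresentedGroup.mk_surjective _ x
    refine ⟨FreeGroup.lift (genMap a b) z, ?_, ?_⟩
    · induction z using FreeGroup.induction_on with
      | C1 => rw [map_one]; exact S.one_mem
      | of i =>
        rw [FreeGroup.lift_apply_of]
        unfold genMap
        split_ifs
        · exact hb _
        · exact ha _
      | inv_of i hi => rw [map_inv]; exact S.inv_mem hi
      | mul x y hx hy => rw [map_mul]; exact S.mul_mem hx hy
    · have h1 : (MonoidHom.fst (S3 ≃ₜ S3) ((ℝ ≃ₜ ℝ) × ((Disc × ℝ) ≃ₜ (Disc × ℝ)))).comp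
          (FreeGroup.lift (genMap a b)) =
          FreeGroup.lift (genMap (fun i => (a i).1) (fun i => (b i).1)) := by
        apply FreeGroup.ext_hom
        intro i
        rw [MonoidHom.comp_apply, FreeGroup.lift_apply_of, FreeGroup.lift_apply_of]
        unfold genMap
        split_ifs <;> rfl
      exact DFunLike.congr_fun h1 z
  choose t ht1 ht2 using hex
  let l : SurfaceGroup g → Triple := fun x => if x = 1 then 1 else t x
  have l1 : l 1 = 1 := if_pos rfl
  have hl1 : ∀ x, l x ∈ S := by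
    intro x
    by_cases h : x = 1
    · rw [h, l1]
      exact S.one_mem
    · change (if x = 1 then 1 else t x) ∈ S
      rw [if_neg h]
      exact ht1 x
  have hl2 : ∀ x, (l x).1 = hol x := by
    intro x
    by_cases h : x = 1
    · rw [h, l1, map_one]
      rfl
    · change (if x = 1 then 1 else t x).1 = _
      rw [if_neg h]
      exact ht2 x
  have hl3 : ∀ x, IsLifted (l x) := fun x => hS (hl1 x)
  have hmul : ∀ x y, ∃ r s : ℤ, l x * l y = l (x * y) * shift r s := by
    intro x y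
    apply lift_unique (lifted_mul (hl3 x) (hl3 y)) (hl3 _)
    change (l x).1 * (l y).1 = (l (x * y)).1
    rw [hl2, hl2, hl2, map_mul]
  choose xR xA hx using hmul
  have hL : Lifts (SurfaceGroup g) l xR xA := ⟨hl3, l1, hx⟩
  refine ⟨l, xR, xA, hL, hl1, hl2, ?_⟩
  have h1 := hL.relator (fun i : Fin g => sa i) (fun i => sb i) (prodComm_gen g)
  have h2 : prodComm (fun i : Fin g => l (sa i)) (fun i => l (sb i)) = prodComm a b := by
    have e1 : ∀ i, ∃ r s : ℤ, l (sa i) = a i * shift r s := by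
      intro i
      apply lift_unique (hl3 _) (hS (ha i))
      rw [hl2]
      exact ofPair_a _ _ _ i
    have e2 : ∀ i, ∃ r s : ℤ, l (sb i) = b i * shift r s := by
      intro i
      apply lift_unique (hl3 _) (hS (hb i))
      rw [hl2]
      exact ofPair_b _ _ _ i
    unfold prodComm
    congr 2
    funext i
    obtain ⟨r1, s1, h1⟩ := e1 i
    obtain ⟨r2, s2, h2⟩ := e2 i
    change l (sa i) * l (sb i) * (l (sa i))⁻¹ * (l (sb i))⁻¹ = _
    rw [h1, h2]
    have c1 := shift_comm (hS (hb i)) r1 s1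
    have c2 := shift_comm (hS (ha i)) r2 s2
    have c3 : shift r1 s1 * shift r2 s2 = shift r2 s2 * shift r1 s1 := by
      rw [shift_mul, shift_mul, add_comm r1, add_comm s1]
    rw [mul_inv_eq_iff_eq_mul, mul_inv_eq_iff_eq_mul]
    have k1 : a i * shift r1 s1 * (b i * shift r2 s2) =
        a i * b i * (shift r1 s1 * shift r2 s2) := by
      rw [mul_assoc, ← mul_assoc (shift r1 s1), ← c1]
      simp only [mul_assoc]
    have k2 : a i * b i * (a i)⁻¹ * (b i)⁻¹ * (b i * shift r2 s2) * (a i * shift r1 s1) =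
        a i * b i * (shift r2 s2 * shift r1 s1) := by
      have k3 : a i * b i * (a i)⁻¹ * (b i)⁻¹ * (b i * shift r2 s2) * (a i * shift r1 s1) =
          a i * b i * (a i)⁻¹ * (shift r2 s2 * a i) * shift r1 s1 := by group
      rw [k3, ← c2]
      group
    rw [k1, k2, c3]
  rw [h2, hab] at h1
  exact ⟨(shift_inj h1).1.symm, (shift_inj h1).2.symm⟩

/-- The flat bundle over a product of two surfaces as a flat bundle over the product of the
surface groups. -/
theorem exists_flatS3 {g k : ℕ} (E : Pool.Agent.H79.FB.FlatBundle g k) :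
    ∃ E' : FlatS3 (SurfaceGroup g × SurfaceGroup k), E'.euler (zz g k) = E.euler ∧
      E'.pontryagin (zz g k) = E.pontryagin := by
  classical
  let S₁ : Subgroup Triple := Subgroup.closure (Set.range E.a ∪ Set.range E.b)
  let S₂ : Subgroup Triple := Subgroup.closure (Set.range E.c ∪ Set.range E.d)
  have hS₁ : S₁ ≤ LG := by
    rw [Subgroup.closure_le]
    rintro x (⟨i, rfl⟩ | ⟨i, rfl⟩)
    · exact E.lifted_a i
    · exact E.lifted_b i
  have hS₂ : S₂ ≤ LG := by
    rw [Subgroup.closure_le]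
    rintro x (⟨i, rfl⟩ | ⟨i, rfl⟩)
    · exact E.lifted_c i
    · exact E.lifted_d i
  have hcomm : ∀ x ∈ S₁, ∀ y ∈ S₂, x * y = y * x := by
    have h1 : ∀ x ∈ Set.range E.a ∪ Set.range E.b, ∀ y ∈ S₂, x * y = y * x := by
      intro x hx y hy
      have h2 : S₂ ≤ Subgroup.centralizer {x} := by
        rw [Subgroup.closure_le]
        rintro z (⟨j, rfl⟩ | ⟨j, rfl⟩)
        · rw [SetLike.mem_coe, Subgroup.mem_centralizer_singleton_iff]
          rcases hx with ⟨i, rfl⟩ | ⟨i, rfl⟩
          · exact (E.comm_ac i j).symm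
          · exact (E.comm_bc i j).symm
        · rw [SetLike.mem_coe, Subgroup.mem_centralizer_singleton_iff]
          rcases hx with ⟨i, rfl⟩ | ⟨i, rfl⟩
          · exact (E.comm_ad i j).symm
          · exact (E.comm_bd i j).symm
      exact (Subgroup.mem_centralizer_singleton_iff.1 (h2 hy)).symm
    intro x hx y hy
    have h2 : S₁ ≤ Subgroup.centralizer {y} := by
      rw [Subgroup.closure_le]
      intro z hz
      rw [SetLike.mem_coe, Subgroup.mem_centralizer_singleton_iff]
      exact h1 z hz y hy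
    exact Subgroup.mem_centralizer_singleton_iff.1 (h2 hx)
  obtain ⟨l₁, xR₁, xA₁, L₁, m₁, f₁, r₁, s₁⟩ := exists_lifts E.a E.b S₁ hS₁
    (fun i => Subgroup.subset_closure (Or.inl ⟨i, rfl⟩))
    (fun i => Subgroup.subset_closure (Or.inr ⟨i, rfl⟩)) E.relator₁
  obtain ⟨l₂, xR₂, xA₂, L₂, m₂, f₂, r₂, s₂⟩ := exists_lifts E.c E.d S₂ hS₂
    (fun i => Subgroup.subset_closure (Or.inl ⟨i, rfl⟩))
    (fun i => Subgroup.subset_closure (Or.inr ⟨i, rfl⟩)) E.relator₂
  let E' : FlatS3 (SurfaceGroup g × SurfaceGroup k) :=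
    { hol := E.holonomy
      lift := fun p => l₁ p.1 * l₂ p.2
      lift_fst := fun p => by
        change (l₁ p.1).1 * (l₂ p.2).1 = _
        rw [f₁, f₂]
        rfl
      lifted := fun p => lifted_mul (L₁.lifted _) (L₂.lifted _)
      lift_one := by
        change l₁ 1 * l₂ 1 = 1
        rw [L₁.one, L₂.one, mul_one]
      xR := osum xR₁ xR₂
      xA := osum xA₁ xA₂
      mul := fun p q => by
        change l₁ p.1 * l₂ p.2 * (l₁ q.1 * l₂ q.2) = l₁ (p.1 * q.1) * l₂ (p.2 * q.2) *
          shift (xR₁ p.1 q.1 + xR₂ p.2 q.2) (xA₁ p.1 q.1 + xA₂ p.2 q.2)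
        have h1 := hcomm _ (m₁ q.1) _ (m₂ p.2)
        have h2 : l₁ p.1 * l₂ p.2 * (l₁ q.1 * l₂ q.2) =
            l₁ p.1 * l₁ q.1 * (l₂ p.2 * l₂ q.2) := by
          rw [mul_assoc, ← mul_assoc (l₂ p.2), ← h1]
          simp only [mul_assoc]
        rw [h2, L₁.mul, L₂.mul, mul_assoc, ← mul_assoc (shift _ _), ← shift_comm (L₂.lifted _),
          mul_assoc (l₂ _), shift_mul, ← mul_assoc] }
  refine ⟨E', ?_, ?_⟩
  · change cup (osum xR₁ xR₂) (osum xA₁ xA₂) (crs _ _) = E.r₁ * E.s₂ + E.r₂ * E.s₁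
    rw [cup_crs L₁.nrm.1 L₁.nrm.2 L₂.nrm.1 L₂.nrm.2, r₁, s₁, r₂, s₂]
    ring
  · change cup (osum xR₁ xR₂) (osum xR₁ xR₂) (crs _ _) +
      cup (osum xA₁ xA₂) (osum xA₁ xA₂) (crs _ _) = 2 * (E.r₁ * E.r₂ + E.s₁ * E.s₂)
    rw [cup_crs L₁.nrm.1 L₁.nrm.1 L₂.nrm.1 L₂.nrm.1, cup_crs L₁.nrm.2 L₁.nrm.2 L₂.nrm.2 L₂.nrm.2,
      r₁, s₁, r₂, s₂]
    ring

end Pool.Agent.H64.NB
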