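import Pool.Agent.H64.NB.Ctr
import Pool.Agent.H64.NB.Cross
import Pool.Agent.H79.FB.Hol

/-!
# The fundamental cycle of a surface group and the product of two surfaces
-/

namespace Pool.Agent.H64.NB

open Pool.Agent.H79.FB Pool.Agent.H8.SV

section cyc

variable {G : Type} [Group G] {g : ℕ}

/-- The products of the first commutators. -/
def pp (a b : Fin g → G) : Fin (g + 1) → G :=
  Fin.partialProd fun i => a i * b i * (a i)⁻¹ * (b i)⁻¹

lemma pp_zero (a b : Fin g → G) : pp a b 0 = 1 := Fin.partialProd_zero _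

lemma pp_last (a b : Fin g → G) : pp a b (Fin.last g) = prodComm a b := by
  unfold pp prodComm Fin.partialProd
  rw [Fin.val_last, List.take_of_length_le (by simp)]

lemma pp_succ (a b : Fin g → G) (i : Fin g) :
    pp a b i.succ = pp a b i.castSucc * (a i * b i * (a i)⁻¹ * (b i)⁻¹) :=
  Fin.partialProd_succ _ _

/-- The part of the fundamental cycle. -/
noncomputable def seg (p a b : G) : Chain ℤ G 2 :=
  Finsupp.single ![p, a] 1 + Finsupp.single ![p * a, b] 1
    - Finsupp.single ![p * a * b * a⁻¹, a] 1 - Finsupp.single ![p * (a * b * a⁻¹ * b⁻¹), b] 1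

lemma bdry_seg (p a b : G) : bdry ℤ G 1 (seg p a b) =
    Finsupp.single ![p] 1 - Finsupp.single ![p * (a * b * a⁻¹ * b⁻¹)] 1 := by
  unfold seg
  have h1 : p * a * b * a⁻¹ * a = p * a * b := by group
  have h2 : p * (a * b * a⁻¹ * b⁻¹) * b = p * a * b * a⁻¹ := by group
  simp only [map_add, map_sub, bdry_two, h1, h2]
  abel

/-- The fundamental cycle `∑ [P_i | a_i] + [P_i a_i | b_i] - [P_i a_i b_i a_i⁻¹ | a_i]
- [P_(i+1) | b_i]`, `P_i = [a_1, b_1] ⋯ [a_(i-1), b_(i-1)]`. -/
noncomputable def fz (a b : Fin g → G) : Chain ℤ G 2 :=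
  ∑ i, seg (pp a b i.castSucc) (a i) (b i)

lemma bdry_fz (a b : Fin g → G) (h : prodComm a b = 1) : bdry ℤ G 1 (fz a b) = 0 := by
  unfold fz
  rw [map_sum]
  simp only [bdry_seg, ← pp_succ]
  have h1 := Fin.sum_univ_castSucc (fun i : Fin (g + 1) =>
    (Finsupp.single ![pp a b i] 1 : Chain ℤ G 1))
  have h2 := Fin.sum_univ_succ (fun i : Fin (g + 1) =>
    (Finsupp.single ![pp a b i] 1 : Chain ℤ G 1))
  rw [Finset.sum_sub_distrib]
  rw [h1] at h2
  rw [pp_last, h, pp_zero] at h2
  have h3 := add_comm (Finsupp.single ![(1 : G)] (1 : ℤ) : Chain ℤ G 1)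
    (∑ i : Fin g, Finsupp.single ![pp a b i.succ] 1)
  rw [h3] at h2
  rw [add_right_cancel h2, sub_self]

/-- A multiplicative system of lifts. -/
structure Lifts (G : Type) [Group G] (l : G → Triple) (xR xA : G → G → ℤ) : Prop where
  lifted : ∀ g, IsLifted (l g)
  one : l 1 = 1
  mul : ∀ g k, l g * l k = l (g * k) * shift (xR g k) (xA g k)

lemma Lifts.nrm {l : G → Triple} {xR xA : G → G → ℤ} (h : Lifts G l xR xA) :
    Nrm xR ∧ Nrm xA := by
  have h1 : ∀ g, xR 1 g = 0 ∧ xA 1 g = 0 := by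
    intro g
    have h2 := h.mul 1 g
    rw [h.one, one_mul, one_mul] at h2
    have h3 : shift (xR 1 g) (xA 1 g) = shift 0 0 := by
      rw [shift_zero]
      exact (left_eq_mul.1 h2)
    exact shift_inj h3
  have h2 : ∀ g, xR g 1 = 0 ∧ xA g 1 = 0 := by
    intro g
    have h2 := h.mul g 1
    rw [h.one, mul_one, mul_one] at h2
    have h3 : shift (xR g 1) (xA g 1) = shift 0 0 := by
      rw [shift_zero]
      exact (left_eq_mul.1 h2)
    exact shift_inj h3
  exact ⟨⟨fun g => (h1 g).1, fun g => (h2 g).1⟩, ⟨fun g => (h1 g).2, fun g => (h2 g).2⟩⟩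

lemma comm_aux {T : Type} [Group T] {P A B Pa Pab Q3 Q4 s1 s2 s3 s4 c : T}
    (h1 : P * A = Pa * s1) (h2 : Pa * B = Pab * s2) (h3 : Q3 * A = Pab * s3)
    (h4 : Q4 * B = Q3 * s4) (b1 : s1 * B = B * s1) (b2 : c * B = B * c)
    (a1 : s4 * c * A = A * (s4 * c)) (hc : s2 * s1 = s3 * (s4 * c)) :
    P * (A * B * A⁻¹ * B⁻¹) = Q4 * c := by
  have e1 : P * A * B = Pab * (s2 * s1) := by
    rw [h1, mul_assoc, b1, ← mul_assoc, h2, mul_assoc]
  have e2 : Q4 * c * B * A = Pab * (s3 * (s4 * c)) := by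
    rw [mul_assoc Q4, b2, ← mul_assoc, h4, mul_assoc Q3, mul_assoc Q3, a1, ← mul_assoc, h3,
      mul_assoc]
  have e3 : P * A * B = Q4 * c * B * A := by rw [e1, e2, hc]
  calc P * (A * B * A⁻¹ * B⁻¹) = P * A * B * A⁻¹ * B⁻¹ := by group
    _ = Q4 * c := by
      rw [e3]
      group

lemma Lifts.seg {l : G → Triple} {xR xA : G → G → ℤ} (h : Lifts G l xR xA) (p a b : G) :
    l p * (l a * l b * (l a)⁻¹ * (l b)⁻¹) = l (p * (a * b * a⁻¹ * b⁻¹)) *
      shift (ev2 xR (seg p a b)) (ev2 xA (seg p a b)) := by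
  unfold NB.seg
  simp only [map_add, map_sub, ev2_single, one_mul]
  have h1 := h.mul p a
  have h2 := h.mul (p * a) b
  have h3 := h.mul (p * a * b * a⁻¹) a
  have h4 := h.mul (p * (a * b * a⁻¹ * b⁻¹)) b
  have e3 : p * a * b * a⁻¹ * a = p * a * b := by group
  have e4 : p * (a * b * a⁻¹ * b⁻¹) * b = p * a * b * a⁻¹ := by group
  rw [e3] at h3
  rw [e4] at h4
  refine comm_aux h1 h2 h3 h4 (shift_comm (h.lifted b) _ _).symm (shift_comm (h.lifted b) _ _).symm
    ?_ ?_
  · rw [shift_mul]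
    exact (shift_comm (h.lifted a) _ _).symm
  · rw [shift_mul, shift_mul, shift_mul]
    congr 1 <;> ring

lemma Lifts.relator {l : G → Triple} {xR xA : G → G → ℤ} (h : Lifts G l xR xA)
    (a b : Fin g → G) (hab : prodComm a b = 1) :
    prodComm (fun i => l (a i)) (fun i => l (b i)) =
      shift (ev2 xR (fz a b)) (ev2 xA (fz a b)) := by
  have key : ∀ j : Fin (g + 1), pp (fun i => l (a i)) (fun i => l (b i)) j =
      l (pp a b j) * shift
        (∑ i : Fin g, if i.castSucc < j then ev2 xR (NB.seg (pp a b i.castSucc) (a i) (b i)) else 0)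
        (∑ i : Fin g, if i.castSucc < j then ev2 xA (NB.seg (pp a b i.castSucc) (a i) (b i)) else 0)
      := by
    intro j
    induction j using Fin.induction with
    | zero =>
      rw [pp_zero, pp_zero, h.one]
      simp [shift_zero]
    | succ j ih =>
      have hc := shift_comm (lifted_mul (lifted_mul (lifted_mul (h.lifted (a j)) (h.lifted (b j)))
        (lifted_inv (h.lifted (a j)))) (lifted_inv (h.lifted (b j))))
      have hs : ∀ f : Fin g → ℤ, (∑ i : Fin g, if i.castSucc < j.succ then f i else 0) =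
          (∑ i : Fin g, if i.castSucc < j.castSucc then f i else 0) + f j := by
        intro f
        have h1 : f j = ∑ i : Fin g, if i = j then f i else 0 := by simp
        rw [h1, ← Finset.sum_add_distrib]
        refine Finset.sum_congr rfl fun i _ => ?_
        by_cases h2 : i = j
        · subst h2
          simp
        · have h3 : (i.castSucc < j.succ) ↔ (i.castSucc < j.castSucc) := by
            rw [Fin.castSucc_lt_succ_iff, Fin.castSucc_lt_castSucc_iff]
            exact ⟨fun h4 => lt_of_le_of_ne h4 h2, fun h4 => h4.le⟩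
          simp only [h3, h2, if_false, add_zero]
      rw [pp_succ, pp_succ, ih, hs, hs, mul_assoc, ← hc, ← mul_assoc, h.seg, mul_assoc, shift_mul]
      congr 2 <;> ring
  have h1 := key (Fin.last g)
  rw [pp_last, pp_last, hab, h.one, one_mul] at h1
  rw [h1]
  unfold fz
  rw [map_sum, map_sum]
  congr 1 <;>
  · refine Finset.sum_congr rfl fun i _ => ?_
    rw [if_pos (Fin.castSucc_lt_last i)]

end cyc

end Pool.Agent.H64.NB
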